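import Pool.Agent.Helper35.HSF.StA

/-!
# HSF module BLC (MP_925021_gt): touching balls, convex case
-/

set_option autoImplicit false

namespace Pool.Agent.Helper22.HSF

open Helper35.HSF Helper35.MS Helper35.PI Helper35.PI2 Helper32.CL
open scoped ContDiff Manifold Topology ENNReal BigOperators
open MeasureTheory Set Filter

/-! ### one variable calculus -/

private lemma cd2 {n m : ℕ} (f : EE n → EE m) (z₀ : EE n) (hf : ContDiffAt ℝ ∞ f z₀) :
    ContDiffAt ℝ 2 f z₀ := hf.of_le ENat.LEInfty.out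

private lemma ev_diff {n m : ℕ} (f : EE n → EE m) (z₀ : EE n) (hf : ContDiffAt ℝ ∞ f z₀) :
    ∀ᶠ z in 𝓝 z₀, DifferentiableAt ℝ f z := by
  have h2 := (cd2 f z₀ hf).eventually (by simp)
  filter_upwards [h2] with z hz
  exact hz.differentiableAt (by simp)

private lemma cd_dir {n m : ℕ} (f : EE n → EE m) (z₀ v : EE n) (hf : ContDiffAt ℝ ∞ f z₀) :
    ContDiffAt ℝ 1 (fun y => fderiv ℝ f y v) z₀ :=
  ((cd2 f z₀ hf).fderiv_right (m := 1) (one_add_one_eq_two.le)).clm_apply contDiffAt_const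

/-- second derivative of a function composed with a line -/
private lemma line_deriv {n m : ℕ} (f : EE n → EE m) (z₀ v : EE n) (e : EE m)
    (hf : ContDiffAt ℝ ∞ f z₀) :
    (∀ᶠ s : ℝ in 𝓝 0, HasDerivAt (fun s : ℝ => (inner ℝ (f (z₀ + s • v)) e : ℝ))
      (inner ℝ (fderiv ℝ f (z₀ + s • v) v) e) s) ∧
    HasDerivAt (fun s : ℝ => (inner ℝ (fderiv ℝ f (z₀ + s • v) v) e : ℝ))
      (inner ℝ (fderiv ℝ (fun y => fderiv ℝ f y v) z₀ v) e) 0 := by
  have hline : ∀ s : ℝ, HasDerivAt (fun s : ℝ => z₀ + s • v) v s := by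
    intro s
    have h := ((hasDerivAt_id s).smul_const v).const_add z₀
    simpa using h
  have hcont : Tendsto (fun s : ℝ => z₀ + s • v) (𝓝 0) (𝓝 z₀) := by
    have h := (hline 0).continuousAt.tendsto
    simpa using h
  constructor
  · have h1 : ∀ᶠ z in 𝓝 z₀, DifferentiableAt ℝ f z := ev_diff f z₀ hf
    filter_upwards [hcont.eventually h1] with s hs
    have h3 : HasDerivAt (fun s : ℝ => f (z₀ + s • v)) (fderiv ℝ f (z₀ + s • v) v) s :=
      hs.hasFDerivAt.comp_hasDerivAt s (hline s)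
    have h4 := h3.inner ℝ (hasDerivAt_const s e)
    simpa using h4
  · have h1 : ContDiffAt ℝ 1 (fun y => fderiv ℝ f y v) z₀ :=
      cd_dir f z₀ v hf
    have h2 : HasFDerivAt (fun y => fderiv ℝ f y v) (fderiv ℝ (fun y => fderiv ℝ f y v) z₀)
        (z₀ + (0 : ℝ) • v) := by
      rw [zero_smul, add_zero]
      exact (h1.differentiableAt (by simp)).hasFDerivAt
    have h3 : HasDerivAt (fun s : ℝ => fderiv ℝ f (z₀ + s • v) v)
        (fderiv ℝ (fun y => fderiv ℝ f y v) z₀ v) 0 := by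
      have h3' := HasFDerivAt.comp_hasDerivAt (x := (0 : ℝ)) (f := fun s : ℝ => z₀ + s • v)
        (l := fun y => fderiv ℝ f y v) h2 (hline 0)
      exact h3'
    have h4 := h3.inner ℝ (hasDerivAt_const (0 : ℝ) e)
    simpa using h4

private lemma second_order {n m : ℕ} (f : EE n → EE m) (z₀ v : EE n) (e : EE m)
    (hf : ContDiffAt ℝ ∞ f z₀) (hmin : ∀ᶠ z in 𝓝 z₀, (inner ℝ (f z₀) e : ℝ) ≤ inner ℝ (f z) e) :
    (inner ℝ (fderiv ℝ f z₀ v) e : ℝ) = 0 ∧
      0 ≤ (inner ℝ (fderiv ℝ (fun y => fderiv ℝ f y v) z₀ v) e : ℝ) := by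
  obtain ⟨h1, h2⟩ := line_deriv f z₀ v e hf
  obtain ⟨φ, hφ⟩ : ∃ φ : ℝ → ℝ, φ = fun s : ℝ => (inner ℝ (f (z₀ + s • v)) e : ℝ) := ⟨_, rfl⟩
  have hcont : Tendsto (fun s : ℝ => z₀ + s • v) (𝓝 0) (𝓝 z₀) := by
    have h : Continuous (fun s : ℝ => z₀ + s • v) := by fun_prop
    have h' := h.tendsto 0
    simpa using h'
  have hlm : IsLocalMin φ 0 := by
    rw [hφ]
    show ∀ᶠ s : ℝ in 𝓝 0, (inner ℝ (f (z₀ + (0 : ℝ) • v)) e : ℝ) ≤ inner ℝ (f (z₀ + s • v)) e
    rw [zero_smul, add_zero]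
    exact hcont.eventually hmin
  have hd1 : ∀ᶠ s : ℝ in 𝓝 0, deriv φ s = inner ℝ (fderiv ℝ f (z₀ + s • v) v) e := by
    filter_upwards [h1] with s hs
    rw [hφ]
    exact hs.deriv
  have hd0 : deriv φ 0 = 0 := hlm.deriv_eq_zero
  have hd2 : deriv (deriv φ) 0 = inner ℝ (fderiv ℝ (fun y => fderiv ℝ f y v) z₀ v) e := by
    have e1 : deriv φ =ᶠ[𝓝 0] fun s : ℝ => (inner ℝ (fderiv ℝ f (z₀ + s • v) v) e : ℝ) := hd1
    rw [e1.deriv_eq]
    exact h2.deriv
  constructor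
  · have h3 := hd1.self_of_nhds
    rw [hd0, zero_smul, add_zero] at h3
    exact h3.symm
  · rw [← hd2]
    by_contra hneg
    push Not at hneg
    have hc : ContinuousAt φ 0 := by
      have h4 := h1.self_of_nhds
      rw [← hφ] at h4
      exact h4.continuousAt
    have h5 : IsLocalMin (fun s => -φ s) 0 := by
      apply isLocalMin_of_deriv_deriv_pos
      · have e2 : deriv (fun s => -φ s) = fun s => -deriv φ s := by
          funext s
          exact deriv.fun_neg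
        rw [e2]
        have e3 : deriv (fun s => -deriv φ s) 0 = -deriv (deriv φ) 0 := deriv.fun_neg
        rw [e3]
        linarith
      · have e2 : deriv (fun s => -φ s) 0 = -deriv φ 0 := deriv.fun_neg
        rw [e2, hd0, neg_zero]
      · exact hc.neg
    have h6 : φ =ᶠ[𝓝 0] fun _ => φ 0 := by
      filter_upwards [hlm, h5] with s hs1 hs2
      have : -φ 0 ≤ -φ s := hs2
      linarith
    have h7 : deriv φ =ᶠ[𝓝 0] fun _ => 0 := by
      have h8 := h6.deriv
      have e3 : deriv (fun _ : ℝ => φ 0) = fun _ => 0 := by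
        funext s; exact deriv_const s (φ 0)
      rw [e3] at h8
      exact h8
    have h9 := h7.deriv_eq
    rw [deriv_const] at h9
    linarith

/-- functions with values in a sphere -/
private lemma sphere_second {n m : ℕ} (f : EE n → EE m) (z₀ v : EE n) (ρ : ℝ)
    (hf : ContDiffAt ℝ ∞ f z₀) (hs : ∀ᶠ z in 𝓝 z₀, ‖f z‖ = ρ) :
    (inner ℝ (fderiv ℝ (fun y => fderiv ℝ f y v) z₀ v) (f z₀) : ℝ) = -‖fderiv ℝ f z₀ v‖ ^ 2 := by
  have hd : ∀ᶠ z in 𝓝 z₀, DifferentiableAt ℝ f z := ev_diff f z₀ hf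
  have h1 : ∀ᶠ z in 𝓝 z₀, (inner ℝ (fderiv ℝ f z v) (f z) : ℝ) = 0 := by
    have h2 := hs.eventually_nhds
    filter_upwards [h2, hd] with z hz hdz
    have h3 : (fun y => (inner ℝ (f y) (f y) : ℝ)) =ᶠ[𝓝 z] fun _ => ρ ^ 2 := by
      filter_upwards [hz] with y hy
      rw [real_inner_self_eq_norm_sq, hy]
    have h4 := (hdz.hasFDerivAt.inner ℝ hdz.hasFDerivAt).fderiv
    rw [h3.fderiv_eq, fderiv_fun_const] at h4
    have h5 := congrArg (fun L : EE n →L[ℝ] ℝ => L v) h4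
    simp at h5
    rw [real_inner_comm (fderiv ℝ f z v) (f z)] at h5
    linarith
  have h2 : ContDiffAt ℝ 1 (fun y => fderiv ℝ f y v) z₀ :=
    cd_dir f z₀ v hf
  have h3 := (h2.differentiableAt (by simp)).hasFDerivAt
  have h4 := hd.self_of_nhds.hasFDerivAt
  have h5 := (h3.inner ℝ h4).fderiv
  have h6 : (fun y => (inner ℝ (fderiv ℝ f y v) (f y) : ℝ)) =ᶠ[𝓝 z₀] fun _ => 0 := h1
  rw [h6.fderiv_eq, fderiv_fun_const] at h5
  have h7 := congrArg (fun L : EE n →L[ℝ] ℝ => L v) h5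
  simp at h7
  linarith

/-! ### The tangent space -/

/-- the coordinate vector with coordinates `c` -/
private noncomputable def cv {n : ℕ} (c : Fin n → ℝ) : EE n := ∑ i, c i • ee i

private lemma fd_cv {n m : ℕ} (f : EE n → EE m) (z : EE n) (c : Fin n → ℝ) :
    fderiv ℝ f z (cv c) = ∑ i, c i • dv1 f z i := by
  unfold cv dv1
  rw [map_sum]
  apply Finset.sum_congr rfl
  intro i _
  rw [map_smul]

private lemma fd2_cv {n m : ℕ} (f : EE n → EE m) (z : EE n) (c : Fin n → ℝ)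
    (hf : ContDiffAt ℝ ∞ f z) :
    fderiv ℝ (fun y => fderiv ℝ f y (cv c)) z (cv c) = ∑ i, ∑ j, (c i * c j) • dv2 f z i j := by
  have e1 : (fun y => fderiv ℝ f y (cv c)) = fun y => ∑ j, c j • fderiv ℝ f y (ee j) := by
    funext y
    rw [fd_cv]
    rfl
  have hdj : ∀ j, DifferentiableAt ℝ (fun y => fderiv ℝ f y (ee j)) z :=
    fun j => (cd_dir f z (ee j) hf).differentiableAt (by simp)
  have e2 : fderiv ℝ (fun y => ∑ j, c j • fderiv ℝ f y (ee j)) z
      = ∑ j, c j • fderiv ℝ (fun y => fderiv ℝ f y (ee j)) z := by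
    rw [fderiv_fun_sum]
    · apply Finset.sum_congr rfl
      intro j _
      rw [fderiv_fun_const_smul (hdj j)]
    · intro j _
      exact (hdj j).const_smul (c j)
  rw [e1, e2]
  unfold cv dv2
  rw [map_sum]
  apply Finset.sum_congr rfl
  intro i _
  rw [map_smul, _root_.sum_apply, Finset.smul_sum]
  apply Finset.sum_congr rfl
  intro j _
  rw [_root_.smul_apply, smul_smul]

/-- `Σ c_i c_j sff_ij` is the normal part of the second derivative -/
private lemma sff_cv {n m : ℕ} (hNR : StNR) (f : EE n → EE m) (z : EE n) (c : Fin n → ℝ)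
    (hf : ContDiffAt ℝ ∞ f z) (hLI : LI f z) (ν : EE m)
    (hν : ∀ i, (inner ℝ ν (dv1 f z i) : ℝ) = 0) :
    (inner ℝ (∑ i, ∑ j, (c i * c j) • sff f z i j) ν : ℝ)
      = inner ℝ (fderiv ℝ (fun y => fderiv ℝ f y (cv c)) z (cv c)) ν := by
  obtain ⟨-, -, -, h4, -, -, h7, -⟩ := hNR n m f z hLI
  rw [fd2_cv f z c hf, sum_inner, sum_inner]
  apply Finset.sum_congr rfl
  intro i _
  rw [sum_inner, sum_inner]
  apply Finset.sum_congr rfl
  intro j _
  rw [inner_smul_left, inner_smul_left]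
  unfold sff
  rw [h7, h4 ν hν]

/-- bound of `A(c,c)` by `|A|` -/
private lemma sff_bound {n m : ℕ} (hFR : StFR) (f : EE n → EE m) (z : EE n) (c : Fin n → ℝ)
    (hLI : LI f z) (hc : ‖∑ i, c i • dv1 f z i‖ ^ 2 = 1) :
    ‖∑ i, ∑ j, (c i * c j) • sff f z i j‖ ^ 2 ≤ nsq f z := by
  obtain ⟨-, -, P, -, hdet, -, hon, -, -, hXY⟩ := hFR n m f z hLI
  obtain ⟨d, hd⟩ : ∃ d : Fin n → ℝ, P.mulVec d = c :=
    ⟨P⁻¹.mulVec c, by rw [Matrix.mulVec_mulVec, Matrix.mul_nonsing_inv P hdet, Matrix.one_mulVec]⟩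
  have hci : ∀ i, c i = ∑ a, P i a * d a := by
    intro i
    rw [← hd]
    rfl
  -- the frame
  obtain ⟨E, hE⟩ : ∃ E : Fin n → EE m, ∀ a, E a = ∑ i, P i a • dv1 f z i := ⟨_, fun _ => rfl⟩
  obtain ⟨B, hB⟩ : ∃ B : Fin n → Fin n → EE m,
      ∀ a b, B a b = ∑ i, ∑ j, (P i a * P j b) • sff f z i j := ⟨_, fun _ _ => rfl⟩
  have hon' : Orthonormal ℝ E := by
    rw [orthonormal_iff_ite]
    intro a b
    rw [hE, hE]
    exact hon a b
  have hT : ∑ i, c i • dv1 f z i = ∑ a, d a • E a := by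
    have e1 : ∀ a, d a • E a = ∑ i, (P i a * d a) • dv1 f z i := by
      intro a
      rw [hE, Finset.smul_sum]
      apply Finset.sum_congr rfl
      intro i _
      rw [smul_smul, mul_comm]
    rw [Finset.sum_congr rfl fun a _ => e1 a, Finset.sum_comm]
    apply Finset.sum_congr rfl
    intro i _
    rw [hci i, Finset.sum_smul]
  have hd1 : ∑ a, d a ^ 2 = 1 := by
    rw [hT, ← real_inner_self_eq_norm_sq, hon'.inner_sum] at hc
    rw [← hc]
    apply Finset.sum_congr rfl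
    intro a _
    simp [pow_two]
  have hQ : ∑ i, ∑ j, (c i * c j) • sff f z i j = ∑ a, ∑ b, (d a * d b) • B a b := by
    have e1 : ∀ i j, (c i * c j) • sff f z i j
        = ∑ a, ∑ b, ((d a * d b) * (P i a * P j b)) • sff f z i j := by
      intro i j
      rw [hci i, hci j, Finset.sum_mul_sum, Finset.sum_smul]
      apply Finset.sum_congr rfl
      intro a _
      rw [Finset.sum_smul]
      apply Finset.sum_congr rfl
      intro b _
      congr 1
      ring
    have e2 : ∀ a b, (d a * d b) • B a b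
        = ∑ i, ∑ j, ((d a * d b) * (P i a * P j b)) • sff f z i j := by
      intro a b
      rw [hB, Finset.smul_sum]
      apply Finset.sum_congr rfl
      intro i _
      rw [Finset.smul_sum]
      apply Finset.sum_congr rfl
      intro j _
      rw [smul_smul]
    calc ∑ i, ∑ j, (c i * c j) • sff f z i j
        = ∑ i, ∑ j, ∑ a, ∑ b, ((d a * d b) * (P i a * P j b)) • sff f z i j := by
          apply Finset.sum_congr rfl
          intro i _
          apply Finset.sum_congr rfl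
          intro j _
          exact e1 i j
      _ = ∑ i, ∑ a, ∑ j, ∑ b, ((d a * d b) * (P i a * P j b)) • sff f z i j := by
          apply Finset.sum_congr rfl
          intro i _
          exact Finset.sum_comm
      _ = ∑ a, ∑ i, ∑ j, ∑ b, ((d a * d b) * (P i a * P j b)) • sff f z i j := Finset.sum_comm
      _ = ∑ a, ∑ i, ∑ b, ∑ j, ((d a * d b) * (P i a * P j b)) • sff f z i j := by
          apply Finset.sum_congr rfl
          intro a _
          apply Finset.sum_congr rfl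
          intro i _
          exact Finset.sum_comm
      _ = ∑ a, ∑ b, ∑ i, ∑ j, ((d a * d b) * (P i a * P j b)) • sff f z i j := by
          apply Finset.sum_congr rfl
          intro a _
          exact Finset.sum_comm
      _ = ∑ a, ∑ b, (d a * d b) • B a b := by
          apply Finset.sum_congr rfl
          intro a _
          apply Finset.sum_congr rfl
          intro b _
          exact (e2 a b).symm
  have hn : nsq f z = ∑ a, ∑ b, ‖B a b‖ ^ 2 := by
    unfold nsq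
    rw [hXY (sff f z) (sff f z)]
    apply Finset.sum_congr rfl
    intro a _
    apply Finset.sum_congr rfl
    intro b _
    rw [← hB, real_inner_self_eq_norm_sq]
  rw [hQ, hn]
  have h1 : ‖∑ a, ∑ b, (d a * d b) • B a b‖ ≤ ∑ p : Fin n × Fin n, |d p.1 * d p.2| * ‖B p.1 p.2‖ := by
    rw [← Fintype.sum_prod_type' (f := fun a b => (d a * d b) • B a b)]
    refine (norm_sum_le _ _).trans (le_of_eq ?_)
    apply Finset.sum_congr rfl
    intro p _
    rw [norm_smul, Real.norm_eq_abs]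
  have h2 : (∑ p : Fin n × Fin n, |d p.1 * d p.2| * ‖B p.1 p.2‖) ^ 2
      ≤ (∑ p : Fin n × Fin n, |d p.1 * d p.2| ^ 2) * ∑ p : Fin n × Fin n, ‖B p.1 p.2‖ ^ 2 :=
    Finset.sum_mul_sq_le_sq_mul_sq _ _ _
  have h3 : ∑ p : Fin n × Fin n, |d p.1 * d p.2| ^ 2 = 1 := by
    rw [Fintype.sum_prod_type' (f := fun a b => |d a * d b| ^ 2)]
    have e3 : ∀ a, ∑ b, |d a * d b| ^ 2 = d a ^ 2 := by
      intro a
      have e4 : ∀ b, |d a * d b| ^ 2 = d a ^ 2 * d b ^ 2 := by
        intro b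
        rw [sq_abs, mul_pow]
      rw [Finset.sum_congr rfl fun b _ => e4 b, ← Finset.mul_sum, hd1, mul_one]
    rw [Finset.sum_congr rfl fun a _ => e3 a, hd1]
  have h4 : ∑ p : Fin n × Fin n, ‖B p.1 p.2‖ ^ 2 = ∑ a, ∑ b, ‖B a b‖ ^ 2 :=
    Fintype.sum_prod_type' (f := fun a b => ‖B a b‖ ^ 2)
  rw [h3, one_mul, h4] at h2
  calc ‖∑ a, ∑ b, (d a * d b) • B a b‖ ^ 2
      ≤ (∑ p : Fin n × Fin n, |d p.1 * d p.2| * ‖B p.1 p.2‖) ^ 2 :=
        pow_le_pow_left₀ (norm_nonneg _) h1 2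
    _ ≤ ∑ a, ∑ b, ‖B a b‖ ^ 2 := h2

/-- vectors orthogonal to the tangent space -/
private lemma decomp {n : ℕ} (w : Fin n → EE (n + 2)) (hLI : LinearIndependent ℝ w)
    (X ν e : EE (n + 2)) (hX : ∀ i, (inner ℝ (w i) X : ℝ) = 0)
    (hν : ∀ i, (inner ℝ (w i) ν : ℝ) = 0) (he : ∀ i, (inner ℝ (w i) e : ℝ) = 0)
    (nX : ‖X‖ = 1) (nν : ‖ν‖ = 1) (hXν : (inner ℝ X ν : ℝ) = 0) :
    e = (inner ℝ e X : ℝ) • X + (inner ℝ e ν : ℝ) • ν := by
  obtain ⟨r, hr⟩ : ∃ r : EE (n + 2), r = e - ((inner ℝ e X : ℝ) • X + (inner ℝ e ν : ℝ) • ν) :=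
    ⟨_, rfl⟩
  have hνX : (inner ℝ ν X : ℝ) = 0 := by rw [real_inner_comm]; exact hXν
  have hXX : (inner ℝ X X : ℝ) = 1 := by rw [real_inner_self_eq_norm_sq, nX]; norm_num
  have hνν : (inner ℝ ν ν : ℝ) = 1 := by rw [real_inner_self_eq_norm_sq, nν]; norm_num
  have hrX : (inner ℝ r X : ℝ) = 0 := by
    rw [hr, inner_sub_left, inner_add_left, inner_smul_left, inner_smul_left, hXX, hνX]
    simp
  have hrν : (inner ℝ r ν : ℝ) = 0 := by
    rw [hr, inner_sub_left, inner_add_left, inner_smul_left, inner_smul_left, hXν, hνν]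
    simp
  have hrw : ∀ i, (inner ℝ (w i) r : ℝ) = 0 := by
    intro i
    rw [hr, inner_sub_right, inner_add_right, inner_smul_right, inner_smul_right, he, hX, hν]
    simp
  by_cases hr0 : r = 0
  · rw [hr0] at hr
    exact (sub_eq_zero.mp hr.symm)
  · exfalso
    have hW : Module.finrank ℝ (Submodule.span ℝ (range w)) = n := by
      rw [finrank_span_eq_card hLI, Fintype.card_fin]
    have hW2 := Submodule.finrank_add_finrank_orthogonal (Submodule.span ℝ (range w))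
    rw [hW, finrank_euclideanSpace_fin] at hW2
    have hmem : ∀ u : EE (n + 2), (∀ i, (inner ℝ (w i) u : ℝ) = 0) →
        u ∈ (Submodule.span ℝ (range w))ᗮ := by
      intro u hu
      rw [Submodule.mem_orthogonal]
      intro v hv
      induction hv using Submodule.span_induction with
      | mem y hy => obtain ⟨i, rfl⟩ := hy; exact hu i
      | zero => simp
      | add a b _ _ ha hb => rw [inner_add_left, ha, hb, add_zero]
      | smul k a _ ha => rw [inner_smul_left, ha, mul_zero]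
    obtain ⟨b, hb⟩ : ∃ b : Fin 3 → (Submodule.span ℝ (range w))ᗮ,
        b = ![⟨X, hmem X hX⟩, ⟨ν, hmem ν hν⟩, ⟨r, hmem r hrw⟩] := ⟨_, rfl⟩
    have hX0 : X ≠ 0 := by
      intro h; rw [h, norm_zero] at nX; norm_num at nX
    have hν0 : ν ≠ 0 := by
      intro h; rw [h, norm_zero] at nν; norm_num at nν
    have hli : LinearIndependent ℝ b := by
      apply linearIndependent_of_ne_zero_of_inner_eq_zero
      · intro i
        rw [hb]
        fin_cases i
        · simpa using hX0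
        · simpa using hν0
        · simpa using hr0
      · intro i j hij
        rw [hb]
        fin_cases i <;> fin_cases j
        · exact absurd rfl hij
        · exact hXν
        · show (inner ℝ X r : ℝ) = 0
          rw [real_inner_comm]; exact hrX
        · exact hνX
        · exact absurd rfl hij
        · show (inner ℝ ν r : ℝ) = 0
          rw [real_inner_comm]; exact hrν
        · exact hrX
        · exact hrν
        · exact absurd rfl hij
    have h3 := hli.fintype_card_le_finrank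
    rw [Fintype.card_fin] at h3
    omega

/-! ### Functions in charts -/

private lemma chart_smooth {n m : ℕ} {M : Type} [TopologicalSpace M] [ChartedSpace (EE n) M]
    [IsManifold (𝓡 n) ∞ M] (G : M → EE m) (hG : ContMDiff (𝓡 n) 𝓘(ℝ, EE m) ∞ G) (p : M) :
    ContDiffOn ℝ ∞ (fun y => G ((chartAt (EE n) p).symm y)) (chartAt (EE n) p).target := by
  have h1 : ContMDiffOn (𝓡 n) (𝓡 n) ∞ (chartAt (EE n) p).symm (chartAt (EE n) p).target :=
    contMDiffOn_chart_symm
  have h2 : ContMDiffOn (𝓡 n) 𝓘(ℝ, EE m) ∞ (fun y => G ((chartAt (EE n) p).symm y))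
      (chartAt (EE n) p).target := hG.comp_contMDiffOn h1
  exact contMDiffOn_iff_contDiffOn.mp h2

private lemma chart_smoothAt {n m : ℕ} {M : Type} [TopologicalSpace M] [ChartedSpace (EE n) M]
    [IsManifold (𝓡 n) ∞ M] (G : M → EE m) (hG : ContMDiff (𝓡 n) 𝓘(ℝ, EE m) ∞ G) (p : M)
    (y : EE n) (hy : y ∈ (chartAt (EE n) p).target) :
    ContDiffAt ℝ ∞ (fun y => G ((chartAt (EE n) p).symm y)) y :=
  (chart_smooth G hG p).contDiffAt ((chartAt (EE n) p).open_target.mem_nhds hy)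

/-- the continuity method -/
private lemma cont_method (T : ℝ → Prop) (τ₀ S : ℝ) (h0 : 0 < τ₀) (hS : τ₀ ≤ S) (hT : T τ₀)
    (hstep : ∀ τ τ', T τ → 0 < τ → τ ≤ τ' → τ' ≤ 3 / 2 * τ → τ' ≤ S → T τ') : T S := by
  have key : ∀ k : ℕ, T (min ((3 / 2) ^ k * τ₀) S) := by
    intro k
    induction k with
    | zero => rw [pow_zero, one_mul, min_eq_left hS]; exact hT
    | succ k ih =>
      have hp : 0 < (3 / 2 : ℝ) ^ k * τ₀ := by positivity
      have hS0 : 0 < S := lt_of_lt_of_le h0 hS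
      have e1 : (3 / 2 : ℝ) ^ (k + 1) * τ₀ = 3 / 2 * ((3 / 2) ^ k * τ₀) := by ring
      apply hstep _ _ ih (lt_min hp hS0)
      · apply min_le_min_right
        rw [e1]; linarith
      · rw [e1]
        rcases le_total ((3 / 2 : ℝ) ^ k * τ₀) S with h | h
        · rw [min_eq_left h]
          exact min_le_left _ _
        · rw [min_eq_right h]
          exact (min_le_right _ _).trans (by linarith)
      · exact min_le_right _ _
  obtain ⟨k, hk⟩ := pow_unbounded_of_one_lt (S / τ₀) (show (1 : ℝ) < 3 / 2 by norm_num)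
  have h1 := key k
  rw [min_eq_right] at h1
  · exact h1
  · rw [div_lt_iff₀ h0] at hk
    exact hk.le

section Main

variable {n : ℕ} {M : Type} [TopologicalSpace M] [T2Space M] [CompactSpace M] [ConnectedSpace M]
  [ChartedSpace (EE n) M] [IsManifold (𝓡 n) ∞ M] {ρ t : ℝ} {F ν : M → ℝ → EE (n + 2)}

omit [T2Space M] [CompactSpace M] [ConnectedSpace M] in
private lemma frozen (hH : Hyp n ρ t F ν) :
    IsImmJ (n := n) univ (fun (q : M) (_ : ℝ) => F q t) where
  op := isOpen_univ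
  smooth := (hH.sF.comp contMDiff_fst).contMDiffOn
  imm := fun p _ _ => hH.im p

omit [T2Space M] [ConnectedSpace M] in
private lemma hn_bound (hFR : StFR) (hI4J : StI4J) (hH : Hyp n ρ t F ν) :
    ∃ K : ℝ, ∀ (q : M) (c : Fin n → ℝ), gn F q t c = 1 → hn F ν q t c < K := by
  have hc := (hI4J n (n + 2) M univ (fun q _ => F q t) (frozen hH)).2.2.1
  unfold CSTJ at hc
  rw [univ_prod_univ, continuousOn_univ] at hc
  have hcont : Continuous (fun q : M => AA (n := n) F q t) := by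
    have h3 : Continuous (fun q : M => (q, (0 : ℝ))) := by fun_prop
    have h4 := hc.comp h3
    have h5 : ∀ q : M, ((fun z : M × ℝ => AA (n := n) (fun (q : M) (_ : ℝ) => F q t) z.1 z.2) ∘
        fun q : M => (q, (0 : ℝ))) q = AA (n := n) F q t := fun _ => rfl
    exact (continuous_congr h5).mp h4
  obtain ⟨K, hK⟩ := (isCompact_range hcont).bddAbove
  refine ⟨Real.sqrt K + 1, ?_⟩
  intro q c hg
  have h1 : ‖An F q t c‖ ^ 2 ≤ AA (n := n) F q t :=
    sff_bound hFR (loc (n := n) F q t) (chartAt (EE n) q q) c (hH.im q) hg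
  have h2 : AA (n := n) F q t ≤ K := hK ⟨q, rfl⟩
  have h3 : ‖An F q t c‖ ≤ Real.sqrt K := by
    apply Real.le_sqrt_of_sq_le
    linarith
  have h4 : hn F ν q t c ≤ ‖An F q t c‖ * ‖ν q t‖ := real_inner_le_norm _ _
  rw [hH.nν q, mul_one] at h4
  linarith

omit [T2Space M] [CompactSpace M] [ConnectedSpace M] [IsManifold (𝓡 n) ∞ M] in
private lemma dv1_mem (q : M) (i : Fin n) :
    dv1 (loc (n := n) F q t) (chartAt (EE n) q q) i ∈ TS (n := n) F q t :=
  Submodule.subset_span ⟨i, rfl⟩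

omit [T2Space M] [CompactSpace M] [ConnectedSpace M] in
private lemma at_min (hNR : StNR) (hWEI : StWEI) (hn2 : 2 ≤ n) (hH : Hyp n ρ t F ν) (κ₀ : ℝ)
    (hhn : ∀ (q : M) (c : Fin n → ℝ), gn F q t c = 1 → κ₀ < hn F ν q t c) (y₀ : M)
    (e : EE (n + 2)) (hmin : ∀ q, (inner ℝ (F y₀ t) e : ℝ) ≤ inner ℝ (F q t) e) :
    ∃ k, κ₀ < k ∧
      e = (inner ℝ e ((1 / ρ) • F y₀ t) : ℝ) • ((1 / ρ) • F y₀ t) +
        (inner ℝ e (ν y₀ t) : ℝ) • ν y₀ t ∧
      0 ≤ -(inner ℝ e ((1 / ρ) • F y₀ t) : ℝ) / ρ + (inner ℝ e (ν y₀ t) : ℝ) * k := by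
  have hρ := hH.ρ0
  obtain ⟨f, hf⟩ : ∃ f : EE n → EE (n + 2), f = loc (n := n) F y₀ t := ⟨_, rfl⟩
  obtain ⟨z₀, hz₀⟩ : ∃ z₀ : EE n, z₀ = chartAt (EE n) y₀ y₀ := ⟨_, rfl⟩
  have hz₀t : z₀ ∈ (chartAt (EE n) y₀).target := by
    rw [hz₀]; exact mem_chart_target (EE n) y₀
  have hsm : ContDiffAt ℝ ∞ f z₀ := by
    rw [hf]
    exact chart_smoothAt (fun q => F q t) hH.sF y₀ z₀ hz₀t
  have hLI : LI f z₀ := by rw [hf, hz₀]; exact hH.im y₀
  have hfz : ∀ z, f z = F ((chartAt (EE n) y₀).symm z) t := by intro z; rw [hf]; rfl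
  have hf0 : f z₀ = F y₀ t := by
    rw [hfz, hz₀, (chartAt (EE n) y₀).left_inv (mem_chart_source (EE n) y₀)]
  have hnf : ∀ z, ‖f z‖ = ρ := by intro z; rw [hfz]; exact hH.nF _
  have hmin' : ∀ᶠ z in 𝓝 z₀, (inner ℝ (f z₀) e : ℝ) ≤ inner ℝ (f z) e := by
    refine Filter.Eventually.of_forall fun z => ?_
    rw [hf0, hfz]
    exact hmin _
  have hde : ∀ i, (inner ℝ (dv1 f z₀ i) e : ℝ) = 0 :=
    fun i => (second_order f z₀ (ee i) e hsm hmin').1
  have hdν : ∀ i, (inner ℝ (dv1 f z₀ i) (ν y₀ t) : ℝ) = 0 := by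
    intro i
    apply hH.tν y₀
    rw [hf, hz₀]
    exact dv1_mem y₀ i
  have hdF : ∀ i, (inner ℝ (dv1 f z₀ i) (F y₀ t) : ℝ) = 0 := by
    intro i
    have h1 := ((hWEI n M ρ t F ν hH).1 y₀ z₀ hz₀t (ee i)).2.2.2
    rw [← hfz, hf0] at h1
    rw [hf]
    exact h1
  have hdX : ∀ i, (inner ℝ (dv1 f z₀ i) ((1 / ρ) • F y₀ t) : ℝ) = 0 := by
    intro i
    rw [inner_smul_right, hdF, mul_zero]
  have nX : ‖(1 / ρ) • F y₀ t‖ = 1 := by
    rw [norm_smul, hH.nF, Real.norm_eq_abs, abs_of_pos (by positivity)]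
    field_simp
  have hXν : (inner ℝ ((1 / ρ) • F y₀ t) (ν y₀ t) : ℝ) = 0 := by
    rw [inner_smul_left, hH.Fν, mul_zero]
  have hdec := decomp (fun i => dv1 f z₀ i) hLI ((1 / ρ) • F y₀ t) (ν y₀ t) e hdX hdν hde nX
    (hH.nν y₀) hXν
  -- a unit tangent vector
  have hw0 : dv1 f z₀ ⟨0, by omega⟩ ≠ 0 := LinearIndependent.ne_zero ⟨0, by omega⟩ hLI
  obtain ⟨c, hc⟩ : ∃ c : Fin n → ℝ, ‖∑ i, c i • dv1 f z₀ i‖ ^ 2 = 1 := by
    refine ⟨Pi.single ⟨0, by omega⟩ (1 / ‖dv1 f z₀ ⟨0, by omega⟩‖), ?_⟩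
    rw [Finset.sum_eq_single (⟨0, by omega⟩ : Fin n)]
    · rw [Pi.single_eq_same, norm_smul, Real.norm_eq_abs, abs_of_pos (by positivity)]
      have := norm_ne_zero_iff.mpr hw0
      field_simp
    · intro j _ hj
      rw [Pi.single_eq_of_ne hj, zero_smul]
    · intro h
      exact absurd (Finset.mem_univ _) h
  have hgn : gn F y₀ t c = 1 := by
    unfold gn tv
    rw [← hf, ← hz₀]
    exact hc
  obtain ⟨Q, hQ⟩ : ∃ Q, Q = fderiv ℝ (fun y => fderiv ℝ f y (cv c)) z₀ (cv c) := ⟨_, rfl⟩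
  have hhn' : hn F ν y₀ t c = inner ℝ Q (ν y₀ t) := by
    unfold hn An
    rw [← hf, ← hz₀, hQ]
    exact sff_cv hNR f z₀ c hsm hLI (ν y₀ t) (fun i => by rw [real_inner_comm]; exact hdν i)
  have hQF : (inner ℝ Q (F y₀ t) : ℝ) = -1 := by
    have h1 := sphere_second f z₀ (cv c) ρ hsm (Filter.Eventually.of_forall hnf)
    rw [← hQ, fd_cv f z₀ c, hc, hf0] at h1
    exact h1
  have hQe : 0 ≤ (inner ℝ Q e : ℝ) := by
    rw [hQ]
    exact (second_order f z₀ (cv c) e hsm hmin').2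
  refine ⟨hn F ν y₀ t c, hhn y₀ c hgn, hdec, ?_⟩
  obtain ⟨a, ha⟩ : ∃ a : ℝ, a = inner ℝ e ((1 / ρ) • F y₀ t) := ⟨_, rfl⟩
  obtain ⟨b, hb⟩ : ∃ b : ℝ, b = inner ℝ e (ν y₀ t) := ⟨_, rfl⟩
  rw [← ha, ← hb] at hdec ⊢
  have e2 : (inner ℝ Q e : ℝ) = a * (1 / ρ * -1) + b * hn F ν y₀ t c := by
    rw [hdec, inner_add_right, inner_smul_right, inner_smul_right, inner_smul_right, hQF, hhn']
  have e1 : a * (1 / ρ * -1) + b * hn F ν y₀ t c = -a / ρ + b * hn F ν y₀ t c := by ring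
  rw [← e1, ← e2]
  exact hQe

omit [T2Space M] [ConnectedSpace M] [CompactSpace M] in
/-- smooth fields in a chart: derivative of a combination -/
private lemma fd_comb (hH : Hyp n ρ t F ν) (p : M) (y : EE n)
    (hy : y ∈ (chartAt (EE n) p).target) (a b : ℝ) (v : EE n) :
    fderiv ℝ (fun y => a • F ((chartAt (EE n) p).symm y) t
        - b • ν ((chartAt (EE n) p).symm y) t) y v
      = a • fderiv ℝ (fun y => F ((chartAt (EE n) p).symm y) t) y v
        - b • fderiv ℝ (fun y => ν ((chartAt (EE n) p).symm y) t) y v := by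
  have h1 : DifferentiableAt ℝ (fun y => F ((chartAt (EE n) p).symm y) t) y :=
    (chart_smoothAt (fun q => F q t) hH.sF p y hy).differentiableAt (by simp)
  have h2 : DifferentiableAt ℝ (fun y => ν ((chartAt (EE n) p).symm y) t) y :=
    (chart_smoothAt (fun q => ν q t) hH.sν p y hy).differentiableAt (by simp)
  have h3 : HasFDerivAt (fun y => a • F ((chartAt (EE n) p).symm y) t
        - b • ν ((chartAt (EE n) p).symm y) t)
      (a • fderiv ℝ (fun y => F ((chartAt (EE n) p).symm y) t) y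
        - b • fderiv ℝ (fun y => ν ((chartAt (EE n) p).symm y) t) y) y :=
    (h1.hasFDerivAt.const_smul a).sub (h2.hasFDerivAt.const_smul b)
  rw [h3.fderiv]
  rfl

omit [T2Space M] [ConnectedSpace M] [CompactSpace M] [IsManifold (𝓡 n) ∞ M] in
private lemma comb_smooth (hH : Hyp n ρ t F ν) (a b : ℝ) :
    ContMDiff (𝓡 n) 𝓘(ℝ, EE (n + 2)) ∞ (fun q : M => a • F q t - b • ν q t) := by
  have h1 : ContMDiff (𝓡 n) 𝓘(ℝ, EE (n + 2)) ∞ (fun q : M => a • F q t) :=
    (ContinuousLinearMap.contMDiff (a • ContinuousLinearMap.id ℝ (EE (n + 2)))).comp hH.sF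
  have h2 : ContMDiff (𝓡 n) 𝓘(ℝ, EE (n + 2)) ∞ (fun q : M => b • ν q t) :=
    (ContinuousLinearMap.contMDiff (b • ContinuousLinearMap.id ℝ (EE (n + 2)))).comp hH.sν
  exact h1.sub h2

/-- the support property for the parallel hypersurface -/
private lemma supp (hASP : StASP) (hWEI : StWEI) (hFR : StFR) (hI4J : StI4J) (hn2 : 2 ≤ n)
    (hH : Hyp n ρ t F ν) (κ₀ : ℝ)
    (hhn : ∀ (q : M) (c : Fin n → ℝ), gn F q t c = 1 → κ₀ < hn F ν q t c) (hκ₀ : 0 < κ₀)
    (c s : ℝ) (hc : 0 < c) (hs : 0 < s) (hcs : c ^ 2 + s ^ 2 = 1) (hτ : c ≤ s * (ρ * κ₀)) :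
    ∀ x y : M, 0 ≤ (inner ℝ ((c / ρ) • F y t + s • ν y t) ((s / ρ) • F x t - c • ν x t) : ℝ) := by
  have hρ := hH.ρ0
  obtain ⟨K, hK⟩ := hn_bound hFR hI4J hH
  obtain ⟨hW1, hW2⟩ := hWEI n M ρ t F ν hH
  have hFF : ∀ q, (inner ℝ (F q t) (F q t) : ℝ) = ρ ^ 2 := by
    intro q; rw [real_inner_self_eq_norm_sq, hH.nF]
  have hνν : ∀ q, (inner ℝ (ν q t) (ν q t) : ℝ) = 1 := by
    intro q; rw [real_inner_self_eq_norm_sq, hH.nν]; norm_num
  have hFν : ∀ q, (inner ℝ (F q t) (ν q t) : ℝ) = 0 := hH.Fν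
  have hνF : ∀ q, (inner ℝ (ν q t) (F q t) : ℝ) = 0 := by
    intro q; rw [real_inner_comm]; exact hH.Fν q
  have hg : ∀ q, (c / ρ) • F q t - (-s) • ν q t = (c / ρ) • F q t + s • ν q t := by
    intro q; rw [neg_smul, sub_neg_eq_add]
  have hη : ∀ q, (s / ρ) • F q t - c • ν q t = -((-(s / ρ)) • F q t - (-c) • ν q t) := by
    intro q; rw [neg_smul, neg_smul]; abel
  have h := hASP n hn2 M (fun q => (c / ρ) • F q t - (-s) • ν q t)
    (fun q => (s / ρ) • F q t - c • ν q t)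
    (comb_smooth hH (c / ρ) (-s)) (comb_smooth hH (s / ρ) c) ?_ ?_ ?_ ?_ ?_
  · intro x y
    have h1 := h.1 x y
    rw [hg] at h1
    exact h1
  · intro q
    have h1 : ‖(c / ρ) • F q t - (-s) • ν q t‖ ^ 2 = 1 := by
      rw [← real_inner_self_eq_norm_sq]
      simp only [inner_sub_left, inner_sub_right, real_inner_smul_left, real_inner_smul_right, hFF,
        hνν, hFν, hνF]
      calc _ = c ^ 2 + s ^ 2 := by field_simp; ring
        _ = 1 := hcs
    nlinarith [norm_nonneg ((c / ρ) • F q t - (-s) • ν q t)]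
  · intro q
    have h1 : ‖(s / ρ) • F q t - c • ν q t‖ ^ 2 = 1 := by
      rw [← real_inner_self_eq_norm_sq]
      simp only [inner_sub_left, inner_sub_right, real_inner_smul_left, real_inner_smul_right, hFF,
        hνν, hFν, hνF]
      calc _ = c ^ 2 + s ^ 2 := by field_simp; ring
        _ = 1 := hcs
    nlinarith [norm_nonneg ((s / ρ) • F q t - c • ν q t)]
  · intro q
    simp only [inner_sub_left, inner_sub_right, real_inner_smul_left, real_inner_smul_right, hFF,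
      hνν, hFν, hνF]
    field_simp
    ring
  · intro p y hy v
    obtain ⟨e1, e2, e3, e4⟩ := hW1 p y hy v
    rw [fd_comb hH p y hy (c / ρ) (-s) v]
    simp only [inner_sub_left, inner_sub_right, real_inner_smul_left, real_inner_smul_right, e1,
      e2, e3, e4]
    ring
  · intro p y hy v hv
    have h1 := hW2 κ₀ K (fun q c hc => ⟨hhn q c hc, hK q c hc⟩) (c / ρ) (-s) (-(s / ρ)) (-c) ?_
      p y hy v hv
    · rw [fd_comb hH p y hy (c / ρ) (-s) v, fd_comb hH p y hy (-(s / ρ)) (-c) v] at h1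
      rw [fd_comb hH p y hy (c / ρ) (-s) v, fd_comb hH p y hy (s / ρ) c v]
      have e : (s / ρ) • fderiv ℝ (fun y => F ((chartAt (EE n) p).symm y) t) y v
          - c • fderiv ℝ (fun y => ν ((chartAt (EE n) p).symm y) t) y v
          = -((-(s / ρ)) • fderiv ℝ (fun y => F ((chartAt (EE n) p).symm y) t) y v
          - (-c) • fderiv ℝ (fun y => ν ((chartAt (EE n) p).symm y) t) y v) := by
        rw [neg_smul, neg_smul]; abel
      rw [e, inner_neg_right]
      linarith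
    · intro κ hκ _
      have h2 : c / ρ ≤ s * κ₀ := by
        rw [div_le_iff₀ hρ]
        linarith
      have h3 : c / ρ + -s * κ < 0 := by nlinarith
      have h4 : -(s / ρ) + -c * κ < 0 := by
        have h5 : 0 < s / ρ := by positivity
        have h6 : 0 < c * κ := mul_pos hc (hκ₀.trans hκ)
        linarith
      exact mul_pos_of_neg_of_neg h3 h4

private lemma claim (hASP : StASP) (hWEI : StWEI) (hFR : StFR) (hNR : StNR) (hI4J : StI4J)
    (hn2 : 2 ≤ n) (hH : Hyp n ρ t F ν) (κ₀ : ℝ)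
    (hhn : ∀ (q : M) (c : Fin n → ℝ), gn F q t c = 1 → κ₀ < hn F ν q t c) (hκ₀ : 0 < κ₀)
    (x : M) (τ : ℝ) (hτ0 : 0 < τ) (hτ : τ ≤ ρ * κ₀) :
    (∀ y, τ ≤ τ * ((inner ℝ (F x t) (F y t) : ℝ) / ρ ^ 2) + (inner ℝ (ν x t) (F y t) : ℝ) / ρ) ∨
      ∃ y, τ * ((inner ℝ (F x t) (F y t) : ℝ) / ρ ^ 2) + (inner ℝ (ν x t) (F y t) : ℝ) / ρ ≤ 0 := by
  have hρ := hH.ρ0
  obtain ⟨s, hsdef⟩ : ∃ s : ℝ, s = 1 / Real.sqrt (1 + τ ^ 2) := ⟨_, rfl⟩
  obtain ⟨c, hcdef⟩ : ∃ c : ℝ, c = τ * s := ⟨_, rfl⟩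
  have hs : 0 < s := by rw [hsdef]; positivity
  have hc : 0 < c := by rw [hcdef]; positivity
  have hs2 : s ^ 2 * (1 + τ ^ 2) = 1 := by
    rw [hsdef, div_pow, Real.sq_sqrt (by positivity)]
    field_simp
  have hcs : c ^ 2 + s ^ 2 = 1 := by
    rw [hcdef]
    linarith
  have hcτ : c ≤ s * (ρ * κ₀) := by
    rw [hcdef, mul_comm]
    exact mul_le_mul_of_nonneg_left hτ hs.le
  have hsupp := supp hASP hWEI hFR hI4J hn2 hH κ₀ hhn hκ₀ c s hc hs hcs hcτ
  obtain ⟨g, hg⟩ : ∃ g : M → EE (n + 2), ∀ q, g q = (c / ρ) • F q t + s • ν q t :=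
    ⟨_, fun _ => rfl⟩
  obtain ⟨η, hη⟩ : ∃ η : M → EE (n + 2), ∀ q, η q = (s / ρ) • F q t - c • ν q t :=
    ⟨_, fun _ => rfl⟩
  have hFF : ∀ q, (inner ℝ (F q t) (F q t) : ℝ) = ρ ^ 2 := by
    intro q; rw [real_inner_self_eq_norm_sq, hH.nF]
  have hνν : ∀ q, (inner ℝ (ν q t) (ν q t) : ℝ) = 1 := by
    intro q; rw [real_inner_self_eq_norm_sq, hH.nν]; norm_num
  have hFν : ∀ q, (inner ℝ (F q t) (ν q t) : ℝ) = 0 := hH.Fν
  have hνF : ∀ q, (inner ℝ (ν q t) (F q t) : ℝ) = 0 := by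
    intro q; rw [real_inner_comm]; exact hH.Fν q
  have hgn : ∀ q, ‖g q‖ = 1 := by
    intro q
    have h1 : ‖g q‖ ^ 2 = 1 := by
      rw [← real_inner_self_eq_norm_sq, hg]
      simp only [inner_add_left, inner_add_right, real_inner_smul_left, real_inner_smul_right, hFF,
        hνν, hFν, hνF]
      calc _ = c ^ 2 + s ^ 2 := by field_simp; ring
        _ = 1 := hcs
    nlinarith [norm_nonneg (g q)]
  have hνd : ∀ q, ν q t = s • g q - c • η q := by
    intro q
    rw [hg, hη, smul_add, smul_sub, smul_smul, smul_smul, smul_smul, smul_smul]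
    have e1 : s * (c / ρ) = c * (s / ρ) := by ring
    rw [e1]
    have e2 : (s * s) • ν q t + (c * c) • ν q t = ν q t := by
      rw [← add_smul]
      have : s * s + c * c = 1 := by linarith
      rw [this, one_smul]
    calc ν q t = (s * s) • ν q t + (c * c) • ν q t := e2.symm
      _ = _ := by abel
  have hb : ∀ y, (inner ℝ (g x) (ν y t) : ℝ) ≤ s := by
    intro y
    have h1 := hsupp y x
    rw [← hg, ← hη] at h1
    have h2 : (inner ℝ (g x) (g y) : ℝ) ≤ 1 := by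
      have := real_inner_le_norm (g x) (g y)
      rw [hgn, hgn, mul_one] at this
      exact this
    rw [hνd y, inner_sub_right, real_inner_smul_right, real_inner_smul_right]
    nlinarith
  -- the minimum
  have hcont : Continuous (fun q : M => (inner ℝ (F q t) (g x) : ℝ)) :=
    hH.sF.continuous.inner continuous_const
  obtain ⟨y₀, -, hy₀⟩ := isCompact_univ.exists_isMinOn ⟨x, mem_univ x⟩ hcont.continuousOn
  have hmin : ∀ q, (inner ℝ (F y₀ t) (g x) : ℝ) ≤ inner ℝ (F q t) (g x) :=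
    fun q => hy₀ (mem_univ q)
  obtain ⟨k, hk, hdec, hk2⟩ := at_min hNR hWEI hn2 hH κ₀ hhn y₀ (g x) hmin
  have hval : ∀ y, (inner ℝ (g x) ((1 / ρ) • F y t) : ℝ)
      = s * (τ * ((inner ℝ (F x t) (F y t) : ℝ) / ρ ^ 2) + (inner ℝ (ν x t) (F y t) : ℝ) / ρ) := by
    intro y
    rw [hg, inner_add_left, real_inner_smul_left, real_inner_smul_left, real_inner_smul_right,
      real_inner_smul_right, hcdef]
    field_simp
  obtain ⟨a, ha⟩ : ∃ a : ℝ, a = inner ℝ (g x) ((1 / ρ) • F y₀ t) := ⟨_, rfl⟩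
  obtain ⟨b, hbdef⟩ : ∃ b : ℝ, b = inner ℝ (g x) (ν y₀ t) := ⟨_, rfl⟩
  rw [← ha, ← hbdef] at hdec hk2
  have hbs : b ≤ s := by rw [hbdef]; exact hb y₀
  have hab : a ^ 2 + b ^ 2 = 1 := by
    have h1 : ‖g x‖ ^ 2 = 1 := by rw [hgn]; norm_num
    rw [hdec, ← real_inner_self_eq_norm_sq] at h1
    simp only [inner_add_left, inner_add_right, real_inner_smul_left, real_inner_smul_right, hFF,
      hνν, hFν, hνF] at h1
    rw [← h1]
    field_simp
    ring
  have hcase : c ≤ a ∨ a ≤ 0 := by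
    rcases le_or_gt b 0 with h | h
    · right
      have h1 : b * k ≤ 0 := mul_nonpos_of_nonpos_of_nonneg h (hκ₀.trans hk).le
      have h2 : 0 ≤ -a / ρ := by linarith
      have h3 : 0 ≤ -a := by
        have := mul_nonneg h2 hρ.le
        rw [div_mul_cancel₀ _ hρ.ne'] at this
        exact this
      linarith
    · by_contra hcon
      push Not at hcon
      obtain ⟨h1, h2⟩ := hcon
      nlinarith
  rcases hcase with h | h
  · left
    intro y
    have h1 : a ≤ inner ℝ (g x) ((1 / ρ) • F y t) := by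
      rw [ha, real_inner_smul_right, real_inner_smul_right]
      apply mul_le_mul_of_nonneg_left _ (by positivity)
      have h2 := hmin y
      rw [real_inner_comm (g x) (F y₀ t), real_inner_comm (g x) (F y t)] at h2
      exact h2
    rw [hval] at h1
    have h2 : s * τ ≤ s * (τ * ((inner ℝ (F x t) (F y t) : ℝ) / ρ ^ 2) +
        (inner ℝ (ν x t) (F y t) : ℝ) / ρ) := by
      rw [hcdef] at h
      linarith
    exact le_of_mul_le_mul_left h2 hs
  · right
    refine ⟨y₀, ?_⟩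
    rw [ha, hval] at h
    exact nonpos_of_mul_nonpos_right h hs

end Main

/-- HSF module BLC -/
theorem hBLC (hASP : StASP) (hWEI : StWEI) (hFR : StFR) (hNR : StNR) (hI4J : StI4J) : StBLC := by
  intro n hn2 M _ _ _ _ _ _ ρ t F ν hH κ₀ hκ₀ hhn hinj hpos x y
  have hρ := hH.ρ0
  obtain ⟨A, hA⟩ : ∃ A : M → ℝ, ∀ y, A y = (inner ℝ (F x t) (F y t) : ℝ) / ρ ^ 2 :=
    ⟨_, fun _ => rfl⟩
  obtain ⟨B, hB⟩ : ∃ B : M → ℝ, ∀ y, B y = (inner ℝ (ν x t) (F y t) : ℝ) / ρ :=
    ⟨_, fun _ => rfl⟩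
  have hclaim : ∀ τ : ℝ, 0 < τ → τ ≤ ρ * κ₀ →
      (∀ y, τ ≤ τ * A y + B y) ∨ ∃ y, τ * A y + B y ≤ 0 := by
    intro τ h0 h1
    have h := claim hASP hWEI hFR hNR hI4J hn2 hH κ₀ hhn hκ₀ x τ h0 h1
    simpa only [hA, hB] using h
  have hAcont : Continuous A := by
    have e : A = fun y => (inner ℝ (F x t) (F y t) : ℝ) / ρ ^ 2 := funext hA
    rw [e]
    exact (continuous_const.inner hH.sF.continuous).div_const _
  have hBcont : Continuous B := by
    have e : B = fun y => (inner ℝ (ν x t) (F y t) : ℝ) / ρ := funext hB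
    rw [e]
    exact (continuous_const.inner hH.sF.continuous).div_const _
  have hA1 : ∀ y, |A y| ≤ 1 := by
    intro y
    rw [hA, abs_div, abs_of_pos (show 0 < ρ ^ 2 by positivity), div_le_one (by positivity)]
    have := abs_real_inner_le_norm (F x t) (F y t)
    rw [hH.nF, hH.nF] at this
    linarith [pow_two ρ]
  have hνF : (inner ℝ (ν x t) (F x t) : ℝ) = 0 := by rw [real_inner_comm]; exact hH.Fν x
  have hBe : ∀ y, B y = (inner ℝ (F y t - F x t) (ν x t) : ℝ) / ρ := by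
    intro y
    rw [hB, inner_sub_left, real_inner_comm (ν x t) (F y t), hH.Fν x, sub_zero]
  have hB0 : ∀ y, F y t ≠ F x t → 0 < B y := by
    intro y hy
    rw [hBe]
    exact div_pos (hpos x y hy) hρ
  have hB1 : ∀ y, 0 ≤ B y := by
    intro y
    by_cases h : F y t = F x t
    · rw [hBe, h, sub_self, inner_zero_left, zero_div]
    · exact (hB0 y h).le
  have hAx : ∀ y, F y t = F x t → A y = 1 := by
    intro y h
    rw [hA, h, real_inner_self_eq_norm_sq, hH.nF]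
    field_simp
  -- small `τ`
  obtain ⟨τ₀, hτ₀, hτ₀S, hsmall⟩ : ∃ τ₀ : ℝ, 0 < τ₀ ∧ τ₀ ≤ ρ * κ₀ ∧ ∀ y, 0 < τ₀ * A y + B y := by
    have hS : 0 < ρ * κ₀ := by positivity
    have hKc : IsCompact {y : M | A y ≤ 0} := (isClosed_le hAcont continuous_const).isCompact
    by_cases hKn : ({y : M | A y ≤ 0}).Nonempty
    · obtain ⟨y₁, hy₁, hm⟩ := hKc.exists_isMinOn hKn hBcont.continuousOn
      have hy₁' : A y₁ ≤ 0 := hy₁
      have hδ : 0 < B y₁ := by
        apply hB0
        intro h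
        have := hAx y₁ h
        linarith
      refine ⟨min (B y₁ / 2) (ρ * κ₀), lt_min (by linarith) hS, min_le_right _ _, ?_⟩
      intro z
      have hτp : 0 < min (B y₁ / 2) (ρ * κ₀) := lt_min (by linarith) hS
      have hτl : min (B y₁ / 2) (ρ * κ₀) ≤ B y₁ / 2 := min_le_left _ _
      rcases le_or_gt (A z) 0 with h | h
      · have h1 : B y₁ ≤ B z := hm h
        have h2 := (abs_le.mp (hA1 z)).1
        nlinarith
      · have h1 := hB1 z
        have h2 := mul_pos hτp h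
        linarith
    · refine ⟨ρ * κ₀, hS, le_refl _, ?_⟩
      intro z
      have h : 0 < A z := by
        by_contra h
        push Not at h
        exact hKn ⟨z, h⟩
      have h1 := hB1 z
      have h2 := mul_pos hS h
      linarith
  have hT0 : ∀ y, τ₀ ≤ τ₀ * A y + B y := by
    rcases hclaim τ₀ hτ₀ hτ₀S with h | ⟨z, h⟩
    · exact h
    · exact absurd h (not_le.mpr (hsmall z))
  have hT := cont_method (fun τ => ∀ y, τ ≤ τ * A y + B y) τ₀ (ρ * κ₀) hτ₀ hτ₀S hT0 (by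
    intro τ τ' h h0 h1 h2 h3
    rcases hclaim τ' (lt_of_lt_of_le h0 h1) h3 with h4 | ⟨z, h4⟩
    · exact h4
    · exfalso
      have h5 := h z
      have h6 := (abs_le.mp (hA1 z)).1
      nlinarith)
  have hfin := hT y
  have e1 : ‖F y t - F x t‖ ^ 2 = 2 * ρ ^ 2 * (1 - A y) := by
    rw [norm_sub_sq_real, hH.nF, hH.nF, hA, real_inner_comm (F x t) (F y t)]
    field_simp
    ring
  have e2 : (inner ℝ (F y t - F x t) (ν x t) : ℝ) = ρ * B y := by
    rw [hBe]
    field_simp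
  rw [e1, e2]
  have h7 : ρ * (κ₀ * ρ * (1 - A y)) ≤ ρ * B y := by
    apply mul_le_mul_of_nonneg_left _ hρ.le
    linarith
  nlinarith

end Pool.Agent.Helper22.HSF
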