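import Pool.Agent.Helper35.HSF.StE

/-!
# HSF module EAL (MP_925021_gt): the algebraic inequality behind the `L^p` estimate
-/

set_option autoImplicit false

namespace Pool.Agent.Helper22.HSF

open Helper35.HSF Helper35.MS Helper35.PI Helper35.PI2 Helper32.CL

private lemma alg (n p μ ε θ e G Z r m w g B Y q σb σy S D : ℝ) (hθ : 0 < θ) (hn : 2 ≤ n)
    (hp : n < p) (hμ : 0 < μ) (hw : n * w = e) (hm : m = n - p) (hg : g ≤ 1) (hD : D = e * B / 4)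
    (he : θ ≤ e) (hr : 0 ≤ r) (hB : 0 ≤ B) (hY : 0 ≤ Y) (hG : 0 ≤ G)
    (h1 : ε ^ 2 / 2 * D ≤ G - θ * (B / 4 + q / 2)) (hS : S ≤ θ * D)
    (hZ : n * ε ^ 2 * (e * θ) ≤ Z)
    (i1 : 0 ≤ p ^ 2 / 4 * Y + (2 * n - 1) * p * q + (2 * n - 1) ^ 2 * B)
    (i3 : 0 ≤ θ ^ 2 * B - 2 * θ * σb + S)
    (i4 : 0 ≤ 4 * B + 4 * q + Y)
    (i5 : 0 ≤ (p - 1) ^ 2 * θ ^ 2 * Y - 8 * μ * (p - 1) * θ * σy + 16 * μ ^ 2 * S)
    (i6 : 0 ≤ (p - 1) ^ 2 * Y + 8 * μ * (p - 1) * q + 16 * μ ^ 2 * B)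
    (cY : -(p * (p - 1)) + p ^ 2 / 4 + μ * (n - 1) / 8 + (p - 1) ^ 2 / 8 + (p - 1) ^ 2 / 16 ≤ 0)
    (cD : -(p * ε ^ 2) + 4 * (2 * n - 1) ^ 2 + μ + 5 / 2 * (μ * (n - 1)) + 6 * μ ^ 2 ≤ 0)
    (ce : 2 * n + 1 - μ * n * ε ^ 2 ≤ 0) :
    -2 * p * G + 2 * p * (θ + w) * θ - p * (p - 1) * θ * (B + Y + 2 * q)
      + θ * m * (2 * (θ + w) + 4 * n * r) - θ * (m ^ 2 - m / 2) * B - 2 * p * m * θ * (B + q)
      - (e + n ^ 2 * r) * θ + μ * (g * D - G - Z)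
      + μ * ((n - 1) * σb + (p - 1) * σy
        - 1 / 2 * θ * ((n - 1) * (B + q) + (p - 1) * (q + Y))) ≤ 0 := by
  have he0 : 0 < e := lt_of_lt_of_le hθ he
  have hD0 : 0 ≤ D := by rw [hD]; positivity
  have hθB : θ * B ≤ 4 * D := by
    rw [hD]
    have := mul_le_mul_of_nonneg_right he hB
    linarith
  -- `σb`
  have a3 : σb ≤ 5 / 2 * D := by
    have h2 : θ * (2 * σb) ≤ θ * (5 * D) := by
      have h3 : θ * (θ * B) ≤ θ * (4 * D) := mul_le_mul_of_nonneg_left hθB hθ.le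
      nlinarith
    have h4 := le_of_mul_le_mul_left h2 hθ
    linarith
  have a5 : μ * (p - 1) * σy ≤ 1 / 8 * (p - 1) ^ 2 * (θ * Y) + 2 * μ ^ 2 * D := by
    have h2 : θ * (8 * (μ * (p - 1) * σy)) ≤ θ * ((p - 1) ^ 2 * (θ * Y) + 16 * μ ^ 2 * D) := by
      have h3 : 16 * μ ^ 2 * S ≤ 16 * μ ^ 2 * (θ * D) :=
        mul_le_mul_of_nonneg_left hS (by positivity)
      nlinarith
    have h4 := le_of_mul_le_mul_left h2 hθ
    linarith
  have hp1 : 0 ≤ p - 1 := by linarith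
  have hn1 : 0 ≤ n - 1 := by linarith
  -- products
  have b1 : θ * (-((2 * n - 1) * p * q)) ≤ θ * (p ^ 2 / 4 * Y + (2 * n - 1) ^ 2 * B) :=
    mul_le_mul_of_nonneg_left (by linarith) hθ.le
  have b1' : (2 * n - 1) ^ 2 * (θ * B) ≤ (2 * n - 1) ^ 2 * (4 * D) :=
    mul_le_mul_of_nonneg_left hθB (by positivity)
  have b3 : μ * (n - 1) * σb ≤ μ * (n - 1) * (5 / 2 * D) :=
    mul_le_mul_of_nonneg_left a3 (mul_nonneg hμ.le hn1)
  have b4 : μ * (n - 1) * θ * (-(1 / 2 * (B + q))) ≤ μ * (n - 1) * θ * (Y / 8) :=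
    mul_le_mul_of_nonneg_left (by linarith) (mul_nonneg (mul_nonneg hμ.le hn1) hθ.le)
  have b6 : θ * (-(1 / 2 * (μ * (p - 1) * q))) ≤ θ * ((p - 1) ^ 2 / 16 * Y + μ ^ 2 * B) :=
    mul_le_mul_of_nonneg_left (by linarith) hθ.le
  have b6' : μ ^ 2 * (θ * B) ≤ μ ^ 2 * (4 * D) := mul_le_mul_of_nonneg_left hθB (by positivity)
  have b7 : 0 ≤ μ * (p - 1) * (θ * Y) := by positivity
  have b8 : μ * (g * D) ≤ μ * D := by
    apply mul_le_mul_of_nonneg_left _ hμ.le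
    nlinarith
  have b9 : 0 ≤ μ * G := by positivity
  have b10 : μ * (n * ε ^ 2 * (e * θ)) ≤ μ * Z := mul_le_mul_of_nonneg_left hZ hμ.le
  have b11 : 2 * p * (ε ^ 2 / 2 * D) ≤ 2 * p * (G - θ * (B / 4 + q / 2)) :=
    mul_le_mul_of_nonneg_left h1 (by linarith)
  have b12 : 0 ≤ (n ^ 2 - n / 2) * (θ * B) := by
    apply mul_nonneg _ (by positivity)
    nlinarith
  have b13 : 2 * n * (θ * θ) ≤ 2 * n * (e * θ) :=
    mul_le_mul_of_nonneg_left (mul_le_mul_of_nonneg_right he hθ.le) (by linarith)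
  have b14 : 0 ≤ (4 * n * (p - n) + n ^ 2) * (θ * r) := by
    apply mul_nonneg _ (by positivity)
    nlinarith
  have b15 : θ * (n * w) = θ * e := by rw [hw]
  -- coefficients
  have c1 := mul_nonneg (neg_nonneg.mpr cY) (show 0 ≤ θ * Y by positivity)
  have c2 := mul_nonneg (neg_nonneg.mpr cD) hD0
  have c3 := mul_nonneg (neg_nonneg.mpr ce) (show 0 ≤ e * θ by positivity)
  subst hm
  linarith [b1, b1', b3, b4, b6, b6', b7, b8, b9, b10, b11, b12, b13, b14, b15, c1, c2, c3, a5]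

private lemma comb_sq {V : Type} [NormedAddCommGroup V] [InnerProductSpace ℝ V] (u v : V)
    (α β : ℝ) : 0 ≤ α ^ 2 * ‖u‖ ^ 2 + 2 * (α * β) * inner ℝ u v + β ^ 2 * ‖v‖ ^ 2 := by
  have h := sq_nonneg ‖α • u + β • v‖
  rw [norm_add_sq_real, norm_smul, norm_smul, real_inner_smul_left, real_inner_smul_right,
    mul_pow, mul_pow, Real.norm_eq_abs, Real.norm_eq_abs, sq_abs, sq_abs] at h
  linarith

private lemma case_pos (n p : ℕ) (μ ε θ e H G Z r m : ℝ) {V : Type} [NormedAddCommGroup V]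
    [InnerProductSpace ℝ V] (a d s : V) (hθ : 0 < θ) (hn : 2 ≤ n)
    (hp : n < p) (hμ : 0 < μ) (hm : m = n - p) (hH : 0 < H) (heH : e = H ^ 2)
    (he : θ ≤ e) (hr : 0 ≤ r) (hG : 0 ≤ G)
    (h1 : ε ^ 2 / 2 * ‖d‖ ^ 2 ≤ G - inner ℝ a d / H + θ * ‖d‖ ^ 2 / e)
    (hS : ‖s‖ ^ 2 ≤ θ * ‖d‖ ^ 2) (hZ : n * ε ^ 2 * (e * θ) ≤ Z)
    (cY : -((p : ℝ) * (p - 1)) + (p : ℝ) ^ 2 / 4 + μ * (n - 1) / 8 + ((p : ℝ) - 1) ^ 2 / 8
      + ((p : ℝ) - 1) ^ 2 / 16 ≤ 0)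
    (cD : -((p : ℝ) * ε ^ 2) + 4 * (2 * n - 1) ^ 2 + μ + 5 / 2 * (μ * (n - 1)) + 6 * μ ^ 2 ≤ 0)
    (ce : 2 * n + 1 - μ * n * ε ^ 2 ≤ 0) :
    p * θ * (-2 * G + 2 * (θ + e / n) * θ) - p * (p - 1) * ‖a‖ ^ 2
        + θ ^ 2 * m * (2 * (θ + e / n) + 4 * n * r) - θ ^ 2 * (4 * m ^ 2 - 2 * m) * ‖d‖ ^ 2 / e
        - 4 * p * m * θ * inner ℝ a d / H - (e + n ^ 2 * r) * θ ^ 2
        + μ * θ * ((1 - 1 / (n : ℝ)) * ‖d‖ ^ 2 - G - Z)
        + μ * inner ℝ (((p : ℝ) - 1) • a + (2 * m * θ / H) • d) (s - (1 / 2 : ℝ) • a) ≤ 0 := by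
  have hn0 : (0 : ℝ) < n := by exact_mod_cast (by omega : 0 < n)
  have hn2 : (2 : ℝ) ≤ n := by exact_mod_cast hn
  have hpn : (n : ℝ) < p := by exact_mod_cast hp
  have he0 : 0 < e := lt_of_lt_of_le hθ he
  obtain ⟨b, hb⟩ : ∃ b : V, b = (2 / H) • d := ⟨_, rfl⟩
  obtain ⟨y, hy⟩ : ∃ y : V, y = (1 / θ) • a - b := ⟨_, rfl⟩
  have hd : d = (H / 2) • b := by
    rw [hb, smul_smul]
    have : H / 2 * (2 / H) = 1 := by field_simp
    rw [this, one_smul]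
  have ha : a = θ • (b + y) := by
    rw [hy, add_sub_cancel, smul_smul]
    have : θ * (1 / θ) = 1 := by field_simp
    rw [this, one_smul]
  obtain ⟨B, hB⟩ : ∃ B : ℝ, B = ‖b‖ ^ 2 := ⟨_, rfl⟩
  obtain ⟨Y, hY⟩ : ∃ Y : ℝ, Y = ‖y‖ ^ 2 := ⟨_, rfl⟩
  obtain ⟨q, hq⟩ : ∃ q : ℝ, q = inner ℝ y b := ⟨_, rfl⟩
  obtain ⟨σb, hσb⟩ : ∃ σb : ℝ, σb = inner ℝ b s := ⟨_, rfl⟩
  obtain ⟨σy, hσy⟩ : ∃ σy : ℝ, σy = inner ℝ y s := ⟨_, rfl⟩
  obtain ⟨S, hSd⟩ : ∃ S : ℝ, S = ‖s‖ ^ 2 := ⟨_, rfl⟩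
  have hbb : (inner ℝ b b : ℝ) = B := by rw [real_inner_self_eq_norm_sq, hB]
  have hyy : (inner ℝ y y : ℝ) = Y := by rw [real_inner_self_eq_norm_sq, hY]
  have hby : (inner ℝ b y : ℝ) = q := by rw [real_inner_comm, hq]
  have hnd : ‖d‖ ^ 2 = e * B / 4 := by
    rw [hd, norm_smul, mul_pow, Real.norm_eq_abs, sq_abs, ← hB, heH]; ring
  have hna : ‖a‖ ^ 2 = θ ^ 2 * (B + Y + 2 * q) := by
    rw [ha, norm_smul, mul_pow, Real.norm_eq_abs, sq_abs, norm_add_sq_real, ← hB, ← hY, hby]; ring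
  have had : (inner ℝ a d : ℝ) = θ * (H / 2) * (B + q) := by
    rw [ha, hd, real_inner_smul_left, real_inner_smul_right, inner_add_left, hbb, ← hq]; ring
  have has : (inner ℝ a s : ℝ) = θ * (σb + σy) := by
    rw [ha, real_inner_smul_left, inner_add_left, ← hσb, ← hσy]
  have hds : (inner ℝ d s : ℝ) = H / 2 * σb := by
    rw [hd, real_inner_smul_left, ← hσb]
  have hin : (inner ℝ (((p : ℝ) - 1) • a + (2 * m * θ / H) • d) (s - (1 / 2 : ℝ) • a) : ℝ)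
      = θ * ((n - 1) * σb + (p - 1) * σy
        - 1 / 2 * θ * ((n - 1) * (B + q) + (p - 1) * (q + Y))) := by
    rw [inner_add_left, real_inner_smul_left, real_inner_smul_left, inner_sub_right,
      inner_sub_right, real_inner_smul_right, real_inner_smul_right, has, hds,
      real_inner_self_eq_norm_sq, hna, real_inner_comm a d, had, hm]
    field_simp
    ring
  have hD0 : 0 ≤ e * B / 4 := by rw [← hnd]; positivity
  have key := alg n p μ ε θ e G Z r m (e / n) (1 - 1 / (n : ℝ)) B Y q σb σy S (e * B / 4) hθ hn2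
    hpn hμ (by field_simp) hm
    (by have : 0 ≤ 1 / (n : ℝ) := by positivity
        linarith) rfl he hr (by rw [hB]; positivity) (by rw [hY]; positivity) hG
    (by
      rw [hnd, had] at h1
      have e1 : θ * (H / 2) * (B + q) / H = θ * (B + q) / 2 := by field_simp
      have e2 : θ * (e * B / 4) / e = θ * B / 4 := by field_simp
      rw [e1, e2] at h1
      linarith)
    (by rw [hSd, ← hnd]; exact hS) hZ
    (by
      have h := comb_sq y b ((p : ℝ) / 2) (2 * n - 1)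
      rw [← hY, ← hB, ← hq] at h
      linarith)
    (by
      have h := comb_sq b s θ (-1)
      rw [← hSd, ← hB, ← hσb] at h
      linarith)
    (by
      have h := comb_sq b y 2 1
      rw [← hY, ← hB, hby] at h
      linarith)
    (by
      have h := comb_sq y s (((p : ℝ) - 1) * θ) (-(4 * μ))
      rw [← hSd, ← hY, ← hσy] at h
      linarith)
    (by
      have h := comb_sq y b ((p : ℝ) - 1) (4 * μ)
      rw [← hY, ← hB, ← hq] at h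
      linarith) cY cD ce
  have h2 := mul_nonneg hθ.le (neg_nonneg.mpr key)
  rw [hin, hna, hnd, had]
  have e1 : 4 * (p : ℝ) * m * θ * (θ * (H / 2) * (B + q)) / H = 2 * p * m * θ ^ 2 * (B + q) := by
    field_simp
    ring
  have e2 : θ ^ 2 * (4 * m ^ 2 - 2 * m) * (e * B / 4) / e = θ ^ 2 * (m ^ 2 - m / 2) * B := by
    field_simp
    ring
  rw [e1, e2]
  linarith

/-- HSF module EAL -/
theorem hEAL : StEAL := by
  intro n ε hn hε hε1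
  have hn2 : (2 : ℝ) ≤ n := by exact_mod_cast hn
  obtain ⟨k, hk⟩ := exists_nat_ge (12 / ε ^ 3 + 16 * n / ε)
  have hk1 : 12 ≤ ε ^ 3 * k := by
    have h1 : 12 / ε ^ 3 ≤ k := by
      have : 0 ≤ 16 * (n : ℝ) / ε := by positivity
      linarith
    rw [div_le_iff₀ (by positivity)] at h1
    linarith
  have hk2 : 16 * (n : ℝ) ≤ ε * k := by
    have h1 : 16 * (n : ℝ) / ε ≤ k := by
      have : 0 ≤ 12 / ε ^ 3 := by positivity
      linarith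
    rw [div_le_iff₀ hε] at h1
    linarith
  have hk0 : (0 : ℝ) ≤ k := Nat.cast_nonneg k
  have hk3 : 16 * (n : ℝ) ≤ k := by
    have : ε * k ≤ 1 * k := mul_le_mul_of_nonneg_right hε1 hk0
    linarith
  have hkn : 16 * n ≤ k := by exact_mod_cast hk3
  have hkk : k ≤ k ^ 2 := by nlinarith
  have hkpos : (0 : ℝ) < k := by linarith
  refine ⟨k ^ 2, ε * k / 4, by omega, by omega, by positivity, ?_⟩
  have hc : ((k ^ 2 : ℕ) : ℝ) = (k : ℝ) ^ 2 := by push_cast; ring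
  -- coefficients
  have cY : -(((k ^ 2 : ℕ) : ℝ) * (((k ^ 2 : ℕ) : ℝ) - 1)) + ((k ^ 2 : ℕ) : ℝ) ^ 2 / 4
      + (ε * k / 4) * (n - 1) / 8 + (((k ^ 2 : ℕ) : ℝ) - 1) ^ 2 / 8
      + (((k ^ 2 : ℕ) : ℝ) - 1) ^ 2 / 16 ≤ 0 := by
    rw [hc]
    have h1 : ε * k * (n - 1) ≤ k * k := by
      have h2 : ε * k ≤ k := by
        have : ε * k ≤ 1 * k := mul_le_mul_of_nonneg_right hε1 hk0
        linarith
      exact mul_le_mul h2 (by linarith) (by linarith) hk0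
    have h3 : (32 : ℝ) ≤ k := by linarith
    have h4 : (32 : ℝ) * 32 ≤ k * k := mul_le_mul h3 h3 (by norm_num) hk0
    nlinarith [mul_nonneg (show (0 : ℝ) ≤ k * k by positivity) (show (0 : ℝ) ≤ k * k - 32 * 32 by linarith)]
  have cD : -(((k ^ 2 : ℕ) : ℝ) * ε ^ 2) + 4 * (2 * (n : ℝ) - 1) ^ 2 + ε * k / 4
      + 5 / 2 * (ε * k / 4 * (n - 1)) + 6 * (ε * k / 4) ^ 2 ≤ 0 := by
    rw [hc]
    obtain ⟨u, hu⟩ : ∃ u : ℝ, u = ε * k := ⟨_, rfl⟩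
    have e1 : (k : ℝ) ^ 2 * ε ^ 2 = u ^ 2 := by rw [hu]; ring
    rw [e1, ← hu]
    rw [← hu] at hk2
    nlinarith [mul_nonneg (show 0 ≤ u - 16 * n by linarith) (show (0 : ℝ) ≤ u + n by nlinarith)]
  have ce : 2 * (n : ℝ) + 1 - ε * k / 4 * n * ε ^ 2 ≤ 0 := by
    have h1 : 12 * (n : ℝ) ≤ ε ^ 3 * k * n := mul_le_mul_of_nonneg_right hk1 (by linarith)
    have e1 : ε * k / 4 * n * ε ^ 2 = ε ^ 3 * k * n / 4 := by ring
    rw [e1]
    linarith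
  intro V _ _ a d s θ e H G Z r m hr hθ0 hH he hθe hG hm h1 hs ha hZ
  rcases eq_or_lt_of_le hθ0 with h | hθ
  · rw [← h] at hs ha ⊢
    have ha0 : a = 0 := by
      have : ‖a‖ ^ 2 ≤ 0 := by linarith
      have h3 : ‖a‖ = 0 := by nlinarith [norm_nonneg a]
      exact norm_eq_zero.mp h3
    have hs0 : s = 0 := by
      have : ‖s‖ ^ 2 ≤ 0 := by linarith
      have h3 : ‖s‖ = 0 := by nlinarith [norm_nonneg s]
      exact norm_eq_zero.mp h3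
    rw [ha0, hs0]
    simp
  · exact case_pos n (k ^ 2) (ε * k / 4) ε θ e H G Z r m a d s hθ hn (by omega) (by positivity) hm
      hH he hθe hr hG h1 hs hZ cY cD ce

end Pool.Agent.Helper22.HSF
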