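import Pool.Agent.Helper35.HSF.StF
import Pool.Agent.Helper8.HSF.M_TYI

/-!
Project HSF, module FHC: `(T - t) H² → n/2`.
-/

set_option autoImplicit false

namespace Helper22.HSF

open Helper35.HSF Helper35.MS Helper35.PI Helper35.PI2 Helper32.CL
open scoped ContDiff Manifold Topology ENNReal BigOperators
open MeasureTheory Set Filter

/-- upper bound for the minimum -/
theorem fhc_upper (hFZP : StFZP) (hEVF : StEVF) (hFBS : StFBS) (hHTR : StHTR)
    {n : ℕ} (hn : 1 ≤ n) {M : Type} [TopologicalSpace M] [T2Space M]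
    [CompactSpace M] [Nonempty M] [ChartedSpace (EE n) M]
    [IsManifold (𝓡 n) ∞ M] {T : ℝ} {F ν : M → ℝ → EE (n + 2)} {ts ε : ℝ}
    (hD : FDat n T F ν ts ε) (t₀ : ℝ) (ht₀ : t₀ ∈ Ico ts T) (tb : ℝ) (htb1 : t₀ < tb)
    (htb2 : tb < T) : ∃ q, Hs n F ν q t₀ ^ 2 * (tb - t₀) ≤ n / 2 := by
  have hfl := hD.fl
  have hI := hfl.mcf.toIsImmJ
  have hn0 : (0 : ℝ) < n := by exact_mod_cast hn
  have hε := hD.ε0
  obtain ⟨sHs, -, hE⟩ := hEVF n hn M (Ioo 0 T) F ν hfl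
  have hJ : ∀ t ∈ Ico ts T, t ∈ Ioo 0 T := fun t ht => ⟨lt_of_lt_of_le hD.ts0.1 ht.1, ht.2⟩
  have hr0 : ∀ t ∈ Ico ts T, 0 < rr n t := fun t ht => hfl.r0 t (hJ t ht)
  have hne : 0 < n * ε := by positivity
  by_contra hcon
  push Not at hcon
  have hT0 : 0 < T - t₀ := by linarith [ht₀.2]
  obtain ⟨su, hu⟩ := Helper8.HSF.ufn_facts hHTR hI sHs (-1) (2 / n * tb) (2 / n)
  have hsub : Icc t₀ tb ⊆ Ioo 0 T := fun t ht => hJ t ⟨le_trans ht₀.1 ht.1, lt_of_le_of_lt ht.2 htb2⟩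
  obtain ⟨q⟩ := (inferInstance : Nonempty M)
  have hfin := hFZP n (n + 2) M (Ioo 0 T) F hfl.mcf _ t₀ tb su hsub ?_ ?_ q tb ⟨htb1.le, le_rfl⟩
  · unfold Helper8.HSF.ufn at hfin
    have : (2 / (n : ℝ) * tb - 2 / n * tb) = 0 := by ring
    rw [this] at hfin
    norm_num at hfin
  · intro q
    unfold Helper8.HSF.ufn
    have h1 := hcon q
    have h2 : 2 / (n : ℝ) * tb - 2 / n * t₀ = 2 * (tb - t₀) / n := by
      field_simp
    rw [h2]
    have h3 : 1 < 2 * (tb - t₀) / n * (Hs n F ν q t₀ * Hs n F ν q t₀) := by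
      rw [div_mul_eq_mul_div, lt_div_iff₀ hn0]
      nlinarith
    linarith
  · intro q t ht h0 hg _
    have ht' : t ∈ Ico ts T := ⟨le_trans ht₀.1 ht.1.le, lt_of_le_of_lt ht.2 htb2⟩
    obtain ⟨f1, f2, f3, f4, f5, f6, f7, f8, f9⟩ := hFBS n hn M T F ν ts ε hD t ht' q q
    have hpos : 0 < Hs n F ν q t := lt_of_lt_of_le hne f1
    have hv : (2 / (n : ℝ) * tb - 2 / n * t) * (Hs n F ν q t * Hs n F ν q t) = 1 := by
      unfold Helper8.HSF.ufn at h0; linarith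
    have hvpos : 0 < 2 / (n : ℝ) * tb - 2 / n * t := by
      by_contra hneg
      push Not at hneg
      nlinarith [mul_pos hpos hpos]
    rw [(hu q t (hJ t ht')).1] at hg
    have hg0 : gdM n F t (fun q => Hs n F ν q t) q = 0 := by
      rcases smul_eq_zero.1 hg with h | h
      · exfalso
        have : 0 < (2 / (n : ℝ) * tb - 2 / n * t) * (2 * Hs n F ν q t) := by positivity
        nlinarith
      · exact h
    rw [(hu q t (hJ t ht')).2, hg0, norm_zero, (hE q t (hJ t ht')).2.2.2.2.1]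
    have he : eN n F q t = Hs n F ν q t ^ 2 := (hE q t (hJ t ht')).2.1
    have hrp : 0 < 2 * (n : ℝ) / rr n t := by
      have := hr0 t ht'
      positivity
    have h4 : Hs n F ν q t ^ 2 / n ≤ h2N n F q t := by rw [f9, he]; linarith
    have h5 : -1 * ((2 / (n : ℝ) * tb - 2 / n * t) * (2 * Hs n F ν q t *
        ((h2N n F q t + 2 * n / rr n t) * Hs n F ν q t) - 2 * (0 : ℝ) ^ 2)
        - 2 / n * (Hs n F ν q t * Hs n F ν q t))
        = -2 * (h2N n F q t + 2 * n / rr n t) *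
          ((2 / (n : ℝ) * tb - 2 / n * t) * (Hs n F ν q t * Hs n F ν q t))
          + 2 * (Hs n F ν q t ^ 2 / n) := by ring
    rw [h5, hv]
    linarith

/-- lower bound for the maximum -/
theorem fhc_lower (hFZP : StFZP) (hEVF : StEVF) (hFBS : StFBS) (hHTR : StHTR)
    {n : ℕ} (hn : 1 ≤ n) {M : Type} [TopologicalSpace M] [T2Space M]
    [CompactSpace M] [Nonempty M] [ChartedSpace (EE n) M]
    [IsManifold (𝓡 n) ∞ M] {T : ℝ} {F ν : M → ℝ → EE (n + 2)} {ts ε C : ℝ}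
    (hD : FDat n T F ν ts ε) (hC : 0 < C)
    (hlo : ∀ t ∈ Ico ts T, ∀ q, 1 ≤ C * ((T - t) * eN n F q t)) (η : ℝ) (hη : 0 < η)
    (t₀ : ℝ) (ht₀ : t₀ ∈ Ico ts T)
    (hθ : ∀ t ∈ Ico t₀ T, ∀ q, thN n F q t + 2 * n / rr n t ≤ η / n * Hs n F ν q t ^ 2)
    (T' : ℝ) (hT' : T < T') :
    ∃ q, 1 ≤ 2 * (1 + 2 * η) / n * (T' - t₀) * Hs n F ν q t₀ ^ 2 := by
  have hfl := hD.fl
  have hI := hfl.mcf.toIsImmJ
  have hn0 : (0 : ℝ) < n := by exact_mod_cast hn
  have hε := hD.ε0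
  obtain ⟨sHs, -, hE⟩ := hEVF n hn M (Ioo 0 T) F ν hfl
  have hJ : ∀ t ∈ Ico ts T, t ∈ Ioo 0 T := fun t ht => ⟨lt_of_lt_of_le hD.ts0.1 ht.1, ht.2⟩
  have hne : 0 < n * ε := by positivity
  by_contra hcon
  push Not at hcon
  have hT0 : 0 < T - t₀ := by linarith [ht₀.2]
  obtain ⟨c, hc⟩ : ∃ c : ℝ, c = 2 * (1 + 2 * η) / n := ⟨_, rfl⟩
  have hc0 : 0 < c := by rw [hc]; positivity
  rw [← hc] at hcon
  -- the time t₂ close to T
  obtain ⟨t₂, ht₂1, ht₂2⟩ : ∃ t₂ : ℝ, t₂ ∈ Ioo t₀ T ∧ C * (T - t₂) ≤ c * (T' - T) := by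
    have hpos : 0 < min ((T - t₀) / 2) (c * (T' - T) / C) := by
      apply lt_min
      · linarith
      · apply div_pos (mul_pos hc0 (by linarith)) hC
    refine ⟨T - min ((T - t₀) / 2) (c * (T' - T) / C), ⟨?_, ?_⟩, ?_⟩
    · have := min_le_left ((T - t₀) / 2) (c * (T' - T) / C)
      linarith
    · linarith
    · have h1 := min_le_right ((T - t₀) / 2) (c * (T' - T) / C)
      have h2 := mul_le_mul_of_nonneg_left h1 hC.le
      have h3 : C * (c * (T' - T) / C) = c * (T' - T) := by field_simp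
      rw [h3] at h2
      have h4 : T - (T - min ((T - t₀) / 2) (c * (T' - T) / C))
        = min ((T - t₀) / 2) (c * (T' - T) / C) := by ring
      rw [h4]
      exact h2
  obtain ⟨su, hu⟩ := Helper8.HSF.ufn_facts hHTR hI sHs 1 (c * T') c
  have hsub : Icc t₀ t₂ ⊆ Ioo 0 T := fun t ht =>
    hJ t ⟨le_trans ht₀.1 ht.1, lt_of_le_of_lt ht.2 ht₂1.2⟩
  have ht2 : t₂ ∈ Ico ts T := ⟨le_trans ht₀.1 ht₂1.1.le, ht₂1.2⟩
  obtain ⟨q⟩ := (inferInstance : Nonempty M)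
  have hfin := hFZP n (n + 2) M (Ioo 0 T) F hfl.mcf _ t₀ t₂ su hsub ?_ ?_ q t₂
    ⟨ht₂1.1.le, le_rfl⟩
  · have he : eN n F q t₂ = Hs n F ν q t₂ ^ 2 := (hE q t₂ (hJ t₂ ht2)).2.1
    have hl := hlo t₂ ht2 q
    rw [he] at hl
    unfold Helper8.HSF.ufn at hfin
    have h1 : c * (T' - T) * Hs n F ν q t₂ ^ 2 < 1 := by
      have h2 : c * (T' - T) ≤ c * T' - c * t₂ := by
        nlinarith [ht₂1.2]
      have h3 := mul_le_mul_of_nonneg_right h2 (sq_nonneg (Hs n F ν q t₂))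
      nlinarith
    have h4 := mul_le_mul_of_nonneg_right ht₂2 (sq_nonneg (Hs n F ν q t₂))
    nlinarith
  · intro q
    unfold Helper8.HSF.ufn
    have h1 := hcon q
    have h2 : c * T' - c * t₀ = c * (T' - t₀) := by ring
    rw [h2]
    nlinarith
  · intro q t ht h0 hg _
    have ht' : t ∈ Ico ts T := ⟨le_trans ht₀.1 ht.1.le, lt_of_le_of_lt ht.2 ht₂1.2⟩
    obtain ⟨f1, f2, f3, f4, f5, f6, f7, f8, f9⟩ := hFBS n hn M T F ν ts ε hD t ht' q q
    have hpos : 0 < Hs n F ν q t := lt_of_lt_of_le hne f1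
    have he : eN n F q t = Hs n F ν q t ^ 2 := (hE q t (hJ t ht')).2.1
    have hv : (c * T' - c * t) * (Hs n F ν q t * Hs n F ν q t) = 1 := by
      unfold Helper8.HSF.ufn at h0; linarith
    have hvpos : 0 < c * T' - c * t := by
      nlinarith [ht'.2]
    rw [(hu q t (hJ t ht')).2, (hE q t (hJ t ht')).2.2.2.2.1]
    have hth := hθ t ⟨ht.1.le, ht'.2⟩ q
    have hrp : h2N n F q t + 2 * (n : ℝ) / rr n t ≤ (1 + η) / n * Hs n F ν q t ^ 2 := by
      rw [f9, he]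
      have : (1 + η) / (n : ℝ) * Hs n F ν q t ^ 2
        = Hs n F ν q t ^ 2 / n + η / n * Hs n F ν q t ^ 2 := by ring
      rw [this]
      linarith
    have h5 : 1 * ((c * T' - c * t) * (2 * Hs n F ν q t *
        ((h2N n F q t + 2 * n / rr n t) * Hs n F ν q t)
          - 2 * ‖gdM n F t (fun q => Hs n F ν q t) q‖ ^ 2)
        - c * (Hs n F ν q t * Hs n F ν q t))
        = 2 * (h2N n F q t + 2 * n / rr n t) *
          ((c * T' - c * t) * (Hs n F ν q t * Hs n F ν q t))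
          - c * Hs n F ν q t ^ 2
          - (c * T' - c * t) *
            (2 * ‖gdM n F t (fun q => Hs n F ν q t) q‖ ^ 2) := by ring
    rw [h5, hv]
    have h6 : 0 ≤ (c * T' - c * t) *
            (2 * ‖gdM n F t (fun q => Hs n F ν q t) q‖ ^ 2) := by positivity
    generalize (c * T' - c * t) *
            (2 * ‖gdM n F t (fun q => Hs n F ν q t) q‖ ^ 2) = Z at h6 ⊢
    have h7 : 0 < η / n * Hs n F ν q t ^ 2 := by positivity
    have h8 : c * Hs n F ν q t ^ 2 = 2 * ((1 + η) / n * Hs n F ν q t ^ 2)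
      + 2 * (η / n * Hs n F ν q t ^ 2) := by rw [hc]; ring
    rw [h8, mul_one]
    linarith

/-- limit in the parameter -/
theorem lin_lim {a X b t : ℝ} (h : ∀ s : ℝ, t < s → a ≤ (s - b) * X) : a ≤ (t - b) * X := by
  by_contra hc
  push Not at hc
  rcases le_or_gt X 0 with hX | hX
  · have h1 := h (t + 1) (by linarith)
    nlinarith
  · have h1 := h (t + (a - (t - b) * X) / (2 * X)) (by
      have : 0 < (a - (t - b) * X) / (2 * X) := div_pos (by linarith) (by linarith)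
      linarith)
    have h2 : (t + (a - (t - b) * X) / (2 * X) - b) * X
      = (t - b) * X + (a - (t - b) * X) / 2 := by field_simp; ring
    rw [h2] at h1
    linarith

theorem lin_lim' {a X b t : ℝ} (hb : b < t) (h : ∀ s : ℝ, b < s → s < t → X * (s - b) ≤ a) :
    X * (t - b) ≤ a := by
  by_contra hc
  push Not at hc
  rcases le_or_gt X 0 with hX | hX
  · have h1 := h ((b + t) / 2) (by linarith) (by linarith)
    nlinarith
  · have hd : 0 < X * (t - b) - a := by linarith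
    have hm : 0 < min ((t - b) / 2) ((X * (t - b) - a) / (2 * X)) :=
      lt_min (by linarith) (div_pos hd (by linarith))
    obtain ⟨m, hm1⟩ : ∃ m, m = min ((t - b) / 2) ((X * (t - b) - a) / (2 * X)) := ⟨_, rfl⟩
    rw [← hm1] at hm
    have h2 : m ≤ (t - b) / 2 := by rw [hm1]; exact min_le_left _ _
    have h3 : m ≤ (X * (t - b) - a) / (2 * X) := by rw [hm1]; exact min_le_right _ _
    have h1 := h (t - m) (by linarith) (by linarith)
    rw [le_div_iff₀ (by linarith)] at h3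
    nlinarith

theorem hFHC (hFOS : StFOS) (hFZP : StFZP) (hEVF : StEVF) (hFBS : StFBS) (hHTR : StHTR) :
    StFHC := by
  intro n hn M _ _ _ _ _ _ T F ν ts ε x C α hX η₀ hη₀
  have hn1 : 1 ≤ n := by omega
  have hn0 : (0 : ℝ) < n := by exact_mod_cast (by omega : 0 < n)
  have hD := hX.d
  have hfl := hD.fl
  have hε := hD.ε0
  have hC0 : 0 < C := by linarith [hX.C1]
  obtain ⟨-, -, hE⟩ := hEVF n hn1 M (Ioo 0 T) F ν hfl
  have hJ : ∀ t ∈ Ico ts T, t ∈ Ioo 0 T := fun t ht => ⟨lt_of_lt_of_le hD.ts0.1 ht.1, ht.2⟩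
  have hne : 0 < n * ε := by positivity
  obtain ⟨η, hη1⟩ : ∃ η : ℝ, η = min 1 (η₀ / (11 * n)) := ⟨_, rfl⟩
  have hη : 0 < η := by rw [hη1]; exact lt_min one_pos (by positivity)
  have hηa : η ≤ 1 := by rw [hη1]; exact min_le_left _ _
  have hηb : η * (11 * n) ≤ η₀ := by
    have : η ≤ η₀ / (11 * n) := by rw [hη1]; exact min_le_right _ _
    rwa [le_div_iff₀ (by positivity)] at this
  obtain ⟨t₁, ht₁, hos⟩ := hFOS n hn M T F ν ts ε x C α hX η hη
  -- the radius bound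
  have hr00 : 0 < 1 - 2 * (n : ℝ) * T := by linarith [hD.T1]
  obtain ⟨r₀, hr0⟩ : ∃ r₀ : ℝ, r₀ = 1 - 2 * (n : ℝ) * T := ⟨_, rfl⟩
  rw [← hr0] at hr00
  have hrr : ∀ t ∈ Ico ts T, r₀ ≤ rr n t := by
    intro t ht
    unfold rr
    have : 2 * (n : ℝ) * t ≤ 2 * n * T := by
      apply mul_le_mul_of_nonneg_left ht.2.le; positivity
    rw [hr0]; linarith
  -- the small time
  obtain ⟨κ, hκ⟩ : ∃ κ : ℝ, κ = η / n / (C * (C + 2 * n / r₀)) := ⟨_, rfl⟩
  have hκ0 : 0 < κ := by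
    have := hX.C1
    rw [hκ]; positivity
  have hα0 := hX.α0
  have hα1 := hX.α1
  obtain ⟨s₀, hs₀⟩ : ∃ s₀ : ℝ, s₀ = min 1 (κ ^ (1 / α)) := ⟨_, rfl⟩
  have hs0 : 0 < s₀ := by rw [hs₀]; exact lt_min one_pos (Real.rpow_pos_of_pos hκ0 _)
  obtain ⟨t₃, ht₃⟩ : ∃ t₃ : ℝ, t₃ = max t₁ (T - s₀) := ⟨_, rfl⟩
  have ht31 : t₁ ≤ t₃ := by rw [ht₃]; exact le_max_left _ _
  have ht32 : T - s₀ ≤ t₃ := by rw [ht₃]; exact le_max_right _ _
  have ht33 : t₃ < T := by rw [ht₃]; exact max_lt ht₁.2 (by linarith)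
  have hθ : ∀ t ∈ Ico t₃ T, ∀ q, thN n F q t + 2 * n / rr n t ≤ η / n * Hs n F ν q t ^ 2 := by
    intro t ht q
    have ht' : t ∈ Ico ts T := ⟨le_trans ht₁.1 (le_trans ht31 ht.1), ht.2⟩
    have he : eN n F q t = Hs n F ν q t ^ 2 := (hE q t (hJ t ht')).2.1
    have hs : 0 < T - t := by linarith [ht.2]
    have hs1 : T - t ≤ s₀ := by linarith [ht.1]
    have hs2 : T - t ≤ 1 := le_trans hs1 (by rw [hs₀]; exact min_le_left _ _)
    have hs3 : T - t ≤ κ ^ (1 / α) := le_trans hs1 (by rw [hs₀]; exact min_le_right _ _)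
    have hs4 : (T - t) ^ α ≤ κ := by
      have h1 := Real.rpow_le_rpow hs.le hs3 hα0.le
      rw [← Real.rpow_mul hκ0.le, one_div_mul_cancel hα0.ne', Real.rpow_one] at h1
      exact h1
    have hs5 : (T - t) ≤ (T - t) ^ α := by
      have h1 := Real.rpow_le_rpow_of_exponent_ge hs hs2 hα1.le
      rwa [Real.rpow_one] at h1
    have hs6 : (T - t) ^ (α - 1) * (T - t) = (T - t) ^ α := by
      rw [← Real.rpow_add_one hs.ne']; congr 1; ring
    have hth := hX.th t ht' q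
    have hl := hX.lo t ht' q
    rw [he] at hl
    have hrb : 2 * (n : ℝ) / rr n t ≤ 2 * n / r₀ :=
      div_le_div_of_nonneg_left (by positivity) hr00 (hrr t ht')
    obtain ⟨X, hXX⟩ : ∃ X, X = Hs n F ν q t ^ 2 := ⟨_, rfl⟩
    rw [← hXX] at hl ⊢
    obtain ⟨P, hP⟩ : ∃ P, P = (T - t) ^ (α - 1) := ⟨_, rfl⟩
    rw [← hP] at hth hs6
    have hP0 : 0 ≤ P := by rw [hP]; positivity
    obtain ⟨Q, hQ⟩ : ∃ Q, Q = (2 * (n : ℝ)) / r₀ := ⟨_, rfl⟩
    have hQ0 : 0 ≤ Q := by rw [hQ]; positivity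
    rw [← hQ] at hrb
    -- (CP + Q)(T - t) ≤ (C + Q) (T-t)^α ≤ η / n / C
    have h1 : (C * P + Q) * (T - t) ≤ (C + Q) * (T - t) ^ α := by
      have h2 : (C * P + Q) * (T - t) = C * (P * (T - t)) + Q * (T - t) := by ring
      rw [h2, hs6]
      nlinarith
    have h2 : (C + Q) * (T - t) ^ α ≤ η / n / C := by
      have h3 : (C + Q) * κ = η / n / C := by
        have hCQ : C + Q ≠ 0 := by positivity
        rw [hκ, ← hQ]
        field_simp
      rw [← h3]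
      exact mul_le_mul_of_nonneg_left hs4 (by positivity)
    have h3 : C * ((C * P + Q) * (T - t)) ≤ η / n := by
      have h4 := mul_le_mul_of_nonneg_left (le_trans h1 h2) hC0.le
      have h5 : C * (η / n / C) = η / n := by field_simp
      rwa [h5] at h4
    -- multiply 1 ≤ C (T-t) X by (CP+Q)
    have hX0 : 0 ≤ X := by rw [hXX]; positivity
    have h4 : C * P + Q ≤ (C * P + Q) * (C * ((T - t) * X)) := by
      have : 0 ≤ C * P + Q := by positivity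
      nlinarith
    have h5 : (C * P + Q) * (C * ((T - t) * X)) = C * ((C * P + Q) * (T - t)) * X := by ring
    rw [h5] at h4
    have h6 := mul_le_mul_of_nonneg_right h3 hX0
    linarith
  refine ⟨t₃, ⟨le_trans ht₁.1 ht31, ht33⟩, fun t ht q => ?_⟩
  have ht' : t ∈ Ico ts T := ⟨le_trans ht₁.1 (le_trans ht31 ht.1), ht.2⟩
  have ht1 : t ∈ Ico t₁ T := ⟨le_trans ht31 ht.1, ht.2⟩
  have hs : 0 < T - t := by linarith [ht.2]
  have hHpos : ∀ q, 0 < Hs n F ν q t := fun q =>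
    lt_of_lt_of_le hne (hFBS n hn1 M T F ν ts ε hD t ht' q q).1
  have hsq : ∀ p q, Hs n F ν p t ^ 2 ≤ (1 + η) ^ 2 * Hs n F ν q t ^ 2 := by
    intro p q
    rw [← mul_pow]
    exact pow_le_pow_left₀ (hHpos p).le (hos t ht1 p q) 2
  have hη2 : 0 < (1 + η) ^ 2 := by positivity
  -- upper bound
  have hup : Hs n F ν q t ^ 2 * (T - t) ≤ (1 + η) ^ 2 * (n / 2) := by
    apply lin_lim' ht.2
    intro s hs1 hs2
    obtain ⟨p, hp⟩ := fhc_upper hFZP hEVF hFBS hHTR hn1 hD t ht' s hs1 hs2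
    calc Hs n F ν q t ^ 2 * (s - t) ≤ ((1 + η) ^ 2 * Hs n F ν p t ^ 2) * (s - t) :=
          mul_le_mul_of_nonneg_right (hsq q p) (by linarith)
      _ = (1 + η) ^ 2 * (Hs n F ν p t ^ 2 * (s - t)) := by ring
      _ ≤ (1 + η) ^ 2 * (n / 2) := mul_le_mul_of_nonneg_left hp hη2.le
  -- lower bound
  have hlow : 1 ≤ (T - t) * (2 * (1 + 2 * η) / n * ((1 + η) ^ 2 * Hs n F ν q t ^ 2)) := by
    apply lin_lim
    intro s hs1
    obtain ⟨p, hp⟩ := fhc_lower hFZP hEVF hFBS hHTR hn1 hD hC0 hX.lo η hη t ht'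
      (fun t' h' q => hθ t' ⟨le_trans ht.1 h'.1, h'.2⟩ q) s hs1
    have h1 : 0 ≤ 2 * (1 + 2 * η) / n * (s - t) := by
      have : 0 ≤ s - t := by linarith
      positivity
    calc (1 : ℝ) ≤ 2 * (1 + 2 * η) / n * (s - t) * Hs n F ν p t ^ 2 := hp
      _ ≤ 2 * (1 + 2 * η) / n * (s - t) * ((1 + η) ^ 2 * Hs n F ν q t ^ 2) :=
          mul_le_mul_of_nonneg_left (hsq p q) h1
      _ = (s - t) * (2 * (1 + 2 * η) / n * ((1 + η) ^ 2 * Hs n F ν q t ^ 2)) := by ring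
  obtain ⟨Y, hY⟩ : ∃ Y, Y = (T - t) * Hs n F ν q t ^ 2 := ⟨_, rfl⟩
  have hY0 : 0 ≤ Y := by rw [hY]; positivity
  rw [← hY]
  have hup' : Y ≤ (1 + η) ^ 2 * (n / 2) := by rw [hY]; linarith
  have hlow' : (n : ℝ) / 2 ≤ (1 + 2 * η) * (1 + η) ^ 2 * Y := by
    have h1 : (T - t) * (2 * (1 + 2 * η) / n * ((1 + η) ^ 2 * Hs n F ν q t ^ 2))
      = 2 / n * ((1 + 2 * η) * (1 + η) ^ 2 * Y) := by rw [hY]; ring
    rw [h1] at hlow
    have h2 := mul_le_mul_of_nonneg_left hlow (by positivity : (0 : ℝ) ≤ n / 2)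
    have h3 : (n : ℝ) / 2 * (2 / n * ((1 + 2 * η) * (1 + η) ^ 2 * Y))
      = (1 + 2 * η) * (1 + η) ^ 2 * Y := by field_simp
    rw [h3] at h2
    linarith
  have e1 : (1 + η) ^ 2 ≤ 1 + 3 * η := by nlinarith
  have e2 : (1 + 2 * η) * (1 + η) ^ 2 ≤ 1 + 11 * η := by nlinarith [mul_pos hη hη]
  have hYn : Y ≤ 2 * n := by
    have : (1 + η) ^ 2 * ((n : ℝ) / 2) ≤ 4 * (n / 2) :=
      mul_le_mul_of_nonneg_right (by nlinarith) (by positivity)
    linarith
  rw [abs_le]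
  constructor
  · have h1 : (n : ℝ) / 2 ≤ (1 + 11 * η) * Y :=
      le_trans hlow' (mul_le_mul_of_nonneg_right e2 hY0)
    have hYm : Y ≤ 2 * n := hYn
    have h2 : 11 * η * Y ≤ 11 * η * (2 * n) := mul_le_mul_of_nonneg_left hYm (by positivity)
    nlinarith
  · have h1 : (1 + η) ^ 2 * ((n : ℝ) / 2) ≤ (1 + 3 * η) * (n / 2) :=
      mul_le_mul_of_nonneg_right e1 (by positivity)
    nlinarith [mul_pos hη hn0]

end Helper22.HSF
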