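import Pool.Agent.Helper35.HSF.StH

/-!
Project HSF, module HIN: infinite time, in the sphere.
-/

set_option autoImplicit false

namespace Helper22.HSF

open Helper35.HSF Helper35.MS Helper35.PI Helper35.PI2 Helper32.CL
open scoped ContDiff Manifold Topology ENNReal BigOperators
open MeasureTheory Set Filter

theorem rr_sgN {n : ℕ} (hn : 0 < n) (t : ℝ) : rr n (sgN n t) = Real.exp (-(2 * n * t)) := by
  have hn0 : (0 : ℝ) < n := by exact_mod_cast hn
  unfold rr sgN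
  field_simp
  ring

theorem tmN_sgN {n : ℕ} (hn : 0 < n) (t : ℝ) : tmN n (sgN n t) = t := by
  have hn0 : (0 : ℝ) < n := by exact_mod_cast hn
  unfold tmN
  rw [rr_sgN hn, Real.log_exp]
  field_simp

theorem sgN_lt {n : ℕ} (hn : 0 < n) (t : ℝ) : sgN n t < 1 / (2 * n) := by
  have hn0 : (0 : ℝ) < n := by exact_mod_cast hn
  unfold sgN
  apply div_lt_div_of_pos_right _ (by positivity)
  linarith [Real.exp_pos (-(2 * (n : ℝ) * t))]

theorem sgN_mono {n : ℕ} (hn : 0 < n) {s t : ℝ} (h : s ≤ t) : sgN n s ≤ sgN n t := by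
  have hn0 : (0 : ℝ) < n := by exact_mod_cast hn
  unfold sgN
  apply div_le_div_of_nonneg_right _ (by positivity)
  have h1 : Real.exp (-(2 * (n : ℝ) * t)) ≤ Real.exp (-(2 * n * s)) := by
    apply Real.exp_le_exp.mpr
    have : 2 * (n : ℝ) * s ≤ 2 * n * t := mul_le_mul_of_nonneg_left h (by positivity)
    linarith
  linarith

theorem ISN_eq {n : ℕ} (hn : 0 < n) : ISN n (1 / (2 * n)) = Ici (0 : ℝ) := by
  ext t
  unfold ISN
  constructor
  · exact fun h => h.1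
  · exact fun h => ⟨h, sgN_lt hn t⟩

theorem hin_pin {n : ℕ} {M : Type} [TopologicalSpace M] [ChartedSpace (EE n) M]
    [IsManifold (𝓡 n) ∞ M] {I : Set ℝ} {F ν : M → ℝ → EE (n + 2)} (hHMN : StHMN) (hn1 : 1 ≤ n)
    (hF : SMCF n I F) (hν : UNI n I F ν) (h0 : (0 : ℝ) ∈ I) (hP : Pin1 n F) :
    ∀ q, ∀ c : Fin n → ℝ, gn F q 0 c = 1 → |hn F ν q 0 c| < 1 := by
  intro q c hc
  obtain ⟨h1, h2⟩ := hHMN n hn1 M I F ν hF hν q 0 h0 c
  rw [hc] at h1
  have h3 := hP q c h1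
  rw [h2, norm_smul, hν.nν q 0 h0, mul_one, Real.norm_eq_abs] at h3
  have h4 : 0 ≤ |Helper35.HSF.hn F ν q 0 c| := abs_nonneg _
  nlinarith

theorem hHIN (hPNA : StPNA) (hGSF : StGSF) (hIFT : StIFT) (hGIJ : StGIJ) (hCNN : StCNN)
    (hHMN : StHMN) (hHSN : StHSN) (hCTN : StCTN) (hNUX : StNUX) : StHIN := by
  intro n hn M _ _ _ _ _ _ F ν₀ hF hν₀ hP
  have hn1 : 1 ≤ n := by omega
  have hnp : 0 < n := by omega
  have hn0 : (0 : ℝ) < n := by exact_mod_cast hnp
  have h0I : (0 : ℝ) ∈ Ici (0 : ℝ) := Set.mem_Ici.mpr le_rfl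
  have hud : UniqueDiffOn ℝ (Ici (0 : ℝ)) := uniqueDiffOn_Ici 0
  obtain ⟨ν, hν, -⟩ := hNUX n hn1 M (Ici 0) F ν₀ hud h0I hF hν₀
  have hpin := hin_pin hHMN hn1 hF hν h0I hP
  obtain ⟨TE, hTE⟩ : ∃ TE : ℝ, TE = 1 / (2 * n) := ⟨_, rfl⟩
  have hTE0 : 0 < TE := by rw [hTE]; positivity
  have hTE1 : 2 * n * TE = 1 := by rw [hTE]; field_simp
  have hI : ISN n TE = Ici 0 := by rw [hTE]; exact ISN_eq hnp
  have hF' : SMCF n (ISN n TE) F := by rw [hI]; exact hF
  have hν' : UNI n (ISN n TE) F ν := by rw [hI]; exact hν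
  obtain ⟨hinj, k, t₁, hk0, hk1, ht₁, hpk⟩ := hPNA n hn M F ν TE hTE0 hTE1.le hF' hν' hpin
  obtain ⟨hfl, hcn⟩ := hCNN n hn1 M F ν TE hTE0 hTE1.le hF' hν'
  obtain ⟨G, L, C, α, hGc, hGr, hC0, hα0, hrate⟩ :=
    hGSF n hn1 M TE (FEN n F) (nuN n ν) hfl hTE1 k t₁ hk0 hk1 ht₁ hpk
  obtain ⟨C₂, α₂, hC₂, hα₂, -, hz⟩ :=
    hIFT n hn1 M TE (FEN n F) (nuN n ν) hfl hTE1 k t₁ hk0 hk1 ht₁ hpk
  have hGi : Function.Injective G :=
    hGIJ n hn1 M TE (FEN n F) (nuN n ν) hfl hTE1 C₂ α₂ t₁ hC₂ hα₂ ht₁ hz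
      (fun t ht => (hpk t ht).1) G C α hα0 (fun t ht q => (hrate t ht q).1)
  obtain ⟨hfr, hcc⟩ := hCTN n (n + 2) M (Ici 0) F hF
  obtain ⟨-, -, hcA⟩ := hcc hud
  -- hS2 = AA - n
  have hS : ∀ t : ℝ, 0 ≤ t → ∀ q, hS2 (n := n) F q t = AA (n := n) F q t - n := by
    intro t ht q
    obtain ⟨f1, f2⟩ := hfr t ht
    obtain ⟨-, f3, -, f4⟩ := f2 q t
    have h1 := (hHSN n (n + 2) hn1 M univ (fun q (_ : ℝ) => F q t) f1 t (mem_univ _)
      (fun q => hF.sph q t ht) q).2.2.2.1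
    rw [f3, f4] at h1
    exact h1
  -- norm of G
  have hGn : ∀ q, ‖G q‖ = 1 := by
    intro q
    have h1 : G q ∈ range G := mem_range_self q
    rw [hGr] at h1
    obtain ⟨v, hv, hv2⟩ := h1
    rw [← hv2, L.norm_map]
    simpa using hv
  -- bound of AA on the compact set
  obtain ⟨t', ht'⟩ : ∃ t', t' = tmN n t₁ := ⟨_, rfl⟩
  have ht₁I : t₁ ∈ Ico 0 TE := ⟨ht₁.1.le, ht₁.2⟩
  have hst' : sgN n t' = t₁ := by rw [ht']; exact (hcn t₁ ht₁I).2.1
  have ht'0 : 0 ≤ t' := by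
    have := (hcn t₁ ht₁I).1
    rw [hI, ← ht'] at this
    exact this
  obtain ⟨B, hB⟩ := (isCompact_univ.prod (isCompact_Icc (a := (0 : ℝ)) (b := t'))).exists_bound_of_continuousOn
    (hcA.mono (Set.prod_mono le_rfl (fun t ht => ht.1) :
      (univ : Set M) ×ˢ Icc (0 : ℝ) t' ⊆ univ ×ˢ Ici 0))
  have hB' : ∀ t : ℝ, 0 ≤ t → t ≤ t' → ∀ q, AA (n := n) F q t ≤ |B| := by
    intro t h1 h2 q
    have h3 := hB (q, t) ⟨mem_univ _, h1, h2⟩
    exact (le_abs_self _).trans (h3.trans (le_abs_self _))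
  obtain ⟨a, ha⟩ : ∃ a : ℝ, a = 2 * n * α := ⟨_, rfl⟩
  have ha0 : 0 < a := by rw [ha]; positivity
  refine ⟨fun t ht => hinj t (by rw [hI]; exact ht), G, L, C + (2 + |B|) * Real.exp (a * t'), a,
    hGc, hGi, hGr, ha0, fun t ht q => ?_⟩
  have hBe : 0 ≤ (2 + |B|) * Real.exp (a * t') := by positivity
  rcases le_or_gt t t' with hle | hgt
  · -- small times
    have he : 1 ≤ Real.exp (a * t') * Real.exp (-a * t) := by
      rw [← Real.exp_add]
      apply Real.one_le_exp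
      have : a * t ≤ a * t' := mul_le_mul_of_nonneg_left hle ha0.le
      linarith
    have hCe : 0 ≤ C * Real.exp (-a * t) := by positivity
    have hkey : 2 + |B| ≤ (C + (2 + |B|) * Real.exp (a * t')) * Real.exp (-a * t) := by
      have h1 : (C + (2 + |B|) * Real.exp (a * t')) * Real.exp (-a * t)
        = C * Real.exp (-a * t) + (2 + |B|) * (Real.exp (a * t') * Real.exp (-a * t)) := by ring
      rw [h1]
      have h2 : (2 + |B|) * 1 ≤ (2 + |B|) * (Real.exp (a * t') * Real.exp (-a * t)) :=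
        mul_le_mul_of_nonneg_left he (by positivity)
      linarith
    constructor
    · have h1 : ‖F q t - G q‖ ≤ 2 := by
        have := norm_sub_le (F q t) (G q)
        rw [hF.sph q t ht, hGn q] at this
        linarith
      linarith [abs_nonneg B]
    · rw [hS t ht q]
      have := hB' t ht hle q
      linarith
  · -- large times
    have hτ : sgN n t ∈ Ico t₁ TE := by
      constructor
      · rw [← hst']; exact sgN_mono hnp hgt.le
      · rw [hTE]; exact sgN_lt hnp t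
    have hτ0 : sgN n t ∈ Ico 0 TE := ⟨le_trans ht₁.1.le hτ.1, hτ.2⟩
    obtain ⟨r1, r2⟩ := hrate (sgN n t) hτ q
    obtain ⟨-, -, c3, c4⟩ := hcn (sgN n t) hτ0
    obtain ⟨c5, -⟩ := c4 q
    have hfe : (1 / Real.sqrt (rr n (sgN n t))) • FEN n F q (sgN n t) = F q t := by
      unfold FEN
      rw [tmN_sgN hnp, smul_smul, one_div, inv_mul_cancel₀ (Real.sqrt_pos.mpr c3).ne', one_smul]
    rw [hfe, rr_sgN hnp, ← Real.exp_mul] at r1
    have e1 : -(2 * (n : ℝ) * t) * α = -a * t := by rw [ha]; ring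
    rw [e1] at r1
    have hexp : 0 < Real.exp (-a * t) := Real.exp_pos _
    have hge : C * Real.exp (-a * t) ≤
        (C + (2 + |B|) * Real.exp (a * t')) * Real.exp (-a * t) :=
      mul_le_mul_of_nonneg_right (by linarith) hexp.le
    constructor
    · exact r1.trans hge
    · have h2 : rr n (sgN n t) * h2N n (FEN n F) q (sgN n t) = hS2 (n := n) F q t := by
        rw [hS t ht q]
        unfold h2N
        rw [c5, tmN_sgN hnp]
        field_simp
      rw [h2, rr_sgN hnp, ← Real.exp_mul] at r2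
      have h3 : Real.exp (-(2 * (n : ℝ) * t) * (2 * α)) ≤ Real.exp (-a * t) := by
        apply Real.exp_le_exp.mpr
        have : -(2 * (n : ℝ) * t) * (2 * α) = -a * t - a * t := by rw [ha]; ring
        rw [this]
        have : 0 ≤ a * t := by positivity
        linarith
      exact r2.trans ((mul_le_mul_of_nonneg_left h3 hC0.le).trans hge)

end Helper22.HSF
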